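import Pool.Agent.E8helper28.BT.L2

set_option autoImplicit false

/-!
# Sums of reciprocals over integers with a small kernel prime to the modulus
-/

namespace Pool.Agent.E8helper28.BT

open Finset BoundingSieve
open Pool.Agent.Erdos456.SieveAux (JJ ww JJ_pos ww_one ww_bound ww_zero mainSum_eq errSum_le P_ne)
open Pool.Agent.Helper923.PPS

/-- the product of the primes which divide `n` but not `q` -/
def ker (q n : ℕ) : ℕ := ∏ p ∈ n.primeFactors.filter (fun p => ¬ p ∣ q), p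

theorem ker_dvd (q n : ℕ) : ker q n ∣ n :=
  (prod_dvd_prod_of_subset _ _ _ (filter_subset _ _)).trans (Nat.prod_primeFactors_dvd n)

theorem ker_pos (q n : ℕ) : 0 < ker q n :=
  prod_pos fun p hp => (Nat.prime_of_mem_primeFactors (mem_filter.1 hp).1).pos

theorem prime_dvd_ker {q n p : ℕ} (hn : n ≠ 0) (hp : p.Prime) :
    p ∣ ker q n ↔ p ∣ n ∧ ¬ p ∣ q := by
  unfold ker
  rw [Prime.dvd_finsetProd_iff hp.prime]
  constructor
  · rintro ⟨l, hl, hpl⟩
    rw [mem_filter, Nat.mem_primeFactors] at hl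
    have : p = l := (Nat.prime_dvd_prime_iff_eq hp hl.1.1).1 hpl
    subst this
    exact ⟨hl.1.2.1, hl.2⟩
  · rintro ⟨h1, h2⟩
    exact ⟨p, mem_filter.2 ⟨Nat.mem_primeFactors.2 ⟨hp, h1, hn⟩, h2⟩, dvd_rfl⟩

theorem ker_squarefree (q n : ℕ) : Squarefree (ker q n) := by
  unfold ker
  refine Finset.squarefree_prod_of_pairwise_isCoprime (fun p hp r hr hpr ↦ ?_) fun p hp ↦ ?_
  · have h1 := Nat.prime_of_mem_primeFactors (mem_filter.1 hp).1
    have h2 := Nat.prime_of_mem_primeFactors (mem_filter.1 hr).1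
    simp only [← Nat.coprime_iff_isRelPrime]
    exact (Nat.coprime_primes h1 h2).mpr hpr
  · exact (Nat.prime_of_mem_primeFactors (mem_filter.1 hp).1).squarefree

theorem ker_coprime (q n : ℕ) : Nat.Coprime (ker q n) q := by
  rw [Nat.coprime_iff_gcd_eq_one]
  by_contra hne
  obtain ⟨p, hp, hpd⟩ := Nat.exists_prime_and_dvd hne
  have h1 : p ∣ ker q n := hpd.trans (Nat.gcd_dvd_left _ _)
  have h2 : p ∣ q := hpd.trans (Nat.gcd_dvd_right _ _)
  rcases Nat.eq_zero_or_pos n with rfl | hn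
  · unfold ker at h1
    simp at h1
    exact hp.one_lt.ne' h1
  · exact ((prime_dvd_ker hn.ne' hp).1 h1).2 h2

theorem ker_mul_prime_le (q n l : ℕ) (hn : n ≠ 0) (hl : l.Prime) : ker q (n * l) ≤ ker q n * l := by
  classical
  unfold ker
  rw [Nat.primeFactors_mul hn hl.ne_zero, hl.primeFactors]
  have h1 : (n.primeFactors ∪ {l}).filter (fun p => ¬ p ∣ q) ⊆
      insert l (n.primeFactors.filter (fun p => ¬ p ∣ q)) := by
    intro p hp
    rw [mem_filter, mem_union, mem_singleton] at hp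
    rw [mem_insert, mem_filter]
    tauto
  have h2 : ∀ p ∈ insert l (n.primeFactors.filter (fun p => ¬ p ∣ q)), 1 ≤ p := by
    intro p hp
    rw [mem_insert, mem_filter] at hp
    rcases hp with rfl | hp
    · exact hl.one_lt.le
    · exact (Nat.prime_of_mem_primeFactors hp.1).one_lt.le
  refine (prod_le_prod_of_subset_of_one_le' h1 fun p hp _ => h2 p hp).trans ?_
  by_cases hmem : l ∈ n.primeFactors.filter (fun p => ¬ p ∣ q)
  · rw [insert_eq_of_mem hmem]
    exact Nat.le_mul_of_pos_right _ hl.pos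
  · rw [prod_insert hmem, mul_comm]

/-- reciprocals, as a homomorphism -/
noncomputable def invHom : ℕ →* ℝ where
  toFun n := (n : ℝ)⁻¹
  map_one' := by simp
  map_mul' := by
    intro m n
    push_cast
    rw [mul_inv]

theorem q_div_totient (q : ℕ) (hq : 1 ≤ q) :
    (q : ℝ) / Nat.totient q = ∏ p ∈ q.primeFactors, (1 - (p : ℝ)⁻¹)⁻¹ := by
  have h2 : (Nat.totient q : ℝ) = q * ∏ p ∈ q.primeFactors, (1 - (p : ℝ)⁻¹) := by
    have h3 := congrArg (fun z : ℚ => (z : ℝ)) (Nat.totient_eq_mul_prod_factors q)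
    push_cast at h3
    exact h3
  have hq0 : (q : ℝ) ≠ 0 := by
    have : (1 : ℝ) ≤ q := by exact_mod_cast hq
    linarith
  rw [h2, Finset.prod_inv_distrib]
  field_simp

theorem fiber (q m : ℕ) (hq : 1 ≤ q) (hm : m ≠ 0) (hmq : Nat.Coprime m q) (S : Finset ℕ)
    (hS : ∀ n ∈ S, n ≠ 0 ∧ ker q n = m) :
    ∑ n ∈ S, (n : ℝ)⁻¹ ≤
      ((q : ℝ) / Nat.totient q) * ((m : ℝ)⁻¹ * ∏ p ∈ m.primeFactors, (1 - (p : ℝ)⁻¹)⁻¹) := by
  classical
  have hlt : ∀ {p : ℕ}, p.Prime → ‖invHom p‖ < 1 := by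
    intro p hp
    change ‖(p : ℝ)⁻¹‖ < 1
    rw [Real.norm_of_nonneg (by positivity)]
    exact inv_lt_one_of_one_lt₀ (by exact_mod_cast hp.one_lt)
  obtain ⟨-, hsum⟩ := EulerProduct.summable_and_hasSum_factoredNumbers_prod_filter_prime_geometric
    hlt (m * q).primeFactors
  have hprod : ∏ p ∈ (m * q).primeFactors with p.Prime, (1 - invHom p)⁻¹ =
      ((q : ℝ) / Nat.totient q) * ∏ p ∈ m.primeFactors, (1 - (p : ℝ)⁻¹)⁻¹ := by
    rw [filter_true_of_mem fun p hp => Nat.prime_of_mem_primeFactors hp, hmq.primeFactors_mul,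
      prod_union hmq.disjoint_primeFactors, q_div_totient q hq, mul_comm]
    rfl
  rw [hprod] at hsum
  have hind : HasSum (Set.indicator (Nat.factoredNumbers (m * q).primeFactors)
      (fun n : ℕ => (n : ℝ)⁻¹))
      (((q : ℝ) / Nat.totient q) * ∏ p ∈ m.primeFactors, (1 - (p : ℝ)⁻¹)⁻¹) :=
    hasSum_subtype_iff_indicator.1 hsum
  have hdiv : ∀ n ∈ S, m ∣ n := fun n hn => by
    rw [← (hS n hn).2]
    exact ker_dvd q n
  have hfac : ∀ n ∈ S, n / m ∈ Nat.factoredNumbers (m * q).primeFactors := by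
    intro n hn
    obtain ⟨hn0, hk⟩ := hS n hn
    have hnm : n / m ≠ 0 := (Nat.div_pos (Nat.le_of_dvd (Nat.pos_of_ne_zero hn0) (hdiv n hn))
      (Nat.pos_of_ne_zero hm)).ne'
    rw [Nat.mem_factoredNumbers_iff_primeFactors_subset]
    refine ⟨hnm, fun p hp => ?_⟩
    rw [Nat.mem_primeFactors] at hp ⊢
    have hpn : p ∣ n := hp.2.1.trans (Nat.div_dvd_of_dvd (hdiv n hn))
    refine ⟨hp.1, ?_, Nat.mul_ne_zero hm (by omega)⟩
    by_cases hpq : p ∣ q
    · exact hpq.mul_left m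
    · have := (prime_dvd_ker hn0 hp.1).2 ⟨hpn, hpq⟩
      rw [hk] at this
      exact this.mul_right q
  have h1 : ∑ n ∈ S, (n : ℝ)⁻¹ = (m : ℝ)⁻¹ * ∑ k ∈ S.image (fun n => n / m), (k : ℝ)⁻¹ := by
    rw [sum_image, mul_sum]
    · apply sum_congr rfl
      intro n hn
      rw [← mul_inv]
      congr 1
      have := Nat.mul_div_cancel' (hdiv n hn)
      exact_mod_cast this.symm
    · intro x hx y hy hxy
      simp only at hxy
      rw [← Nat.mul_div_cancel' (hdiv x hx), ← Nat.mul_div_cancel' (hdiv y hy), hxy]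
  have h2 : ∑ k ∈ S.image (fun n => n / m), (k : ℝ)⁻¹ ≤
      ((q : ℝ) / Nat.totient q) * ∏ p ∈ m.primeFactors, (1 - (p : ℝ)⁻¹)⁻¹ := by
    refine le_trans (le_of_eq ?_) (sum_le_hasSum (S.image (fun n => n / m)) (fun k _ =>
      Set.indicator_nonneg (fun _ _ => by positivity) k) hind)
    apply sum_congr rfl
    intro k hk
    rw [mem_image] at hk
    obtain ⟨n, hn, rfl⟩ := hk
    rw [Set.indicator_of_mem (hfac n hn)]
  rw [h1]
  calc (m : ℝ)⁻¹ * ∑ k ∈ S.image (fun n => n / m), (k : ℝ)⁻¹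
      ≤ (m : ℝ)⁻¹ * (((q : ℝ) / Nat.totient q) * ∏ p ∈ m.primeFactors, (1 - (p : ℝ)⁻¹)⁻¹) := by
        gcongr
    _ = _ := by ring

theorem ker_sum (a q N R : ℕ) (hq : 1 ≤ q) (S D : Finset ℕ) (hD : D ⊆ (PP q R).divisors)
    (hS : ∀ n ∈ S, n ≠ 0 ∧ ker q n ∈ D) :
    ∑ n ∈ S, (n : ℝ)⁻¹ ≤
      ((q : ℝ) / Nat.totient q) * ∑ m ∈ D, (apSieve a q N R).selbergTerms m := by
  classical
  rw [← sum_fiberwise_of_maps_to (g := ker q) (t := D) (fun n hn => (hS n hn).2), mul_sum]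
  apply sum_le_sum
  intro m hm
  have hm' := Nat.dvd_of_mem_divisors (hD hm)
  have hm0 : m ≠ 0 := (Nat.pos_of_mem_divisors (hD hm)).ne'
  refine (fiber q m hq hm0 (coprime_of_dvd_PP hm') _ fun n hn => ?_).trans (le_of_eq ?_)
  · rw [mem_filter] at hn
    exact ⟨(hS n hn.1).1, hn.2⟩
  · rw [BoundingSieve.selbergTerms_apply]
    rfl

/-- the reciprocals of integers with kernel at most `R` -/
theorem ker_sum_le (a q N R : ℕ) (hq : 1 ≤ q) (S : Finset ℕ)
    (hS : ∀ n ∈ S, n ≠ 0 ∧ ker q n ≤ R) :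
    ∑ n ∈ S, (n : ℝ)⁻¹ ≤ ((q : ℝ) / Nat.totient q) * JJ (apSieve a q N R) R := by
  refine ker_sum a q N R hq S ((PP q R).divisors.filter (· ≤ R)) (filter_subset _ _) ?_
  intro n hn
  refine ⟨(hS n hn).1, ?_⟩
  rw [mem_filter, Nat.mem_divisors]
  exact ⟨⟨dvd_PP_of_squarefree (ker_squarefree q n) (hS n hn).2 (ker_coprime q n),
    (PP_squarefree q R).ne_zero⟩, (hS n hn).2⟩

/-- the part of `J` of the `m` with `m p ≤ R` -/
noncomputable def JP (a q N R p : ℕ) : ℝ :=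
  ∑ m ∈ (PP q R).divisors.filter (fun m => m * p ≤ R), (apSieve a q N R).selbergTerms m

/-- the reciprocals of integers with kernel in `(R / p, R]` -/
theorem ker_sum_diff (a q N R p : ℕ) (hq : 1 ≤ q) (hp : 1 ≤ p) (S : Finset ℕ)
    (hS : ∀ n ∈ S, n ≠ 0 ∧ ker q n ≤ R ∧ R < ker q n * p) :
    ∑ n ∈ S, (n : ℝ)⁻¹ ≤
      ((q : ℝ) / Nat.totient q) * (JJ (apSieve a q N R) R - JP a q N R p) := by
  classical
  have h1 := ker_sum a q N R hq S
    ((PP q R).divisors.filter (fun m => m ≤ R ∧ R < m * p)) (filter_subset _ _) (by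
      intro n hn
      obtain ⟨h0, h1, h2⟩ := hS n hn
      refine ⟨h0, ?_⟩
      rw [mem_filter, Nat.mem_divisors]
      exact ⟨⟨dvd_PP_of_squarefree (ker_squarefree q n) h1 (ker_coprime q n),
        (PP_squarefree q R).ne_zero⟩, h1, h2⟩)
  refine h1.trans (le_of_eq ?_)
  congr 1
  unfold JJ JP
  change _ = ∑ l ∈ (PP q R).divisors.filter (· ≤ R), _ - _
  rw [eq_sub_iff_add_eq, ← sum_union]
  · apply sum_congr _ fun _ _ => rfl
    ext m
    simp only [mem_union, mem_filter]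
    constructor
    · rintro (⟨h1, h2, h3⟩ | ⟨h1, h2⟩)
      · exact ⟨h1, h2⟩
      · exact ⟨h1, (Nat.le_mul_of_pos_right m hp).trans h2⟩
    · rintro ⟨h1, h2⟩
      rcases lt_or_ge R (m * p) with h | h
      · exact Or.inl ⟨h1, h2, h⟩
      · exact Or.inr ⟨h1, h⟩
  · rw [disjoint_left]
    intro m h1 h2
    rw [mem_filter] at h1 h2
    omega

end Pool.Agent.E8helper28.BT
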