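import Pool.Agent.H617R3.BT.Sieve

set_option autoImplicit false

/-!
# The mean square of Selberg's divisor sum over a progression
-/

namespace Pool.Agent.E8helper28.BT

open Finset BoundingSieve
open Pool.Agent.Erdos456.SieveAux (JJ ww JJ_pos ww_one ww_bound ww_zero mainSum_eq errSum_le P_ne)
open Pool.Agent.Helper923.PPS

/-- the divisor sum of Selberg's weights -/
noncomputable def W (s : BoundingSieve) (R n : ℕ) : ℝ :=
  ∑ d ∈ (Nat.gcd s.prodPrimes n).divisors, ww s R d

theorem lamsq_sum (w : ℕ → ℝ) (n : ℕ) :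
    ∑ d ∈ n.divisors, lambdaSquared w d = (∑ d ∈ n.divisors, w d) ^ 2 := by
  classical
  unfold lambdaSquared
  have h1 : ∀ d ∈ n.divisors, (∑ d1 ∈ d.divisors, ∑ d2 ∈ d.divisors,
      if d = Nat.lcm d1 d2 then w d1 * w d2 else 0) =
      ∑ d1 ∈ n.divisors, ∑ d2 ∈ n.divisors, if d = Nat.lcm d1 d2 then w d1 * w d2 else 0 := by
    intro d hd
    have hdn := Nat.dvd_of_mem_divisors hd
    have hn0 : n ≠ 0 := (Nat.mem_divisors.1 hd).2
    have hd0 : d ≠ 0 := ne_zero_of_dvd_ne_zero hn0 hdn
    have hsub : d.divisors ⊆ n.divisors := Nat.divisors_subset_of_dvd hn0 hdn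
    rw [← sum_subset hsub]
    · apply sum_congr rfl
      intro d1 _
      apply sum_subset hsub
      intro d2 _ h2
      rw [if_neg]
      intro h
      exact h2 (Nat.mem_divisors.2 ⟨h ▸ Nat.dvd_lcm_right d1 d2, hd0⟩)
    · intro d1 _ h1
      apply sum_eq_zero
      intro d2 _
      rw [if_neg]
      intro h
      exact h1 (Nat.mem_divisors.2 ⟨h ▸ Nat.dvd_lcm_left d1 d2, hd0⟩)
  rw [sum_congr rfl h1, sum_comm, sq, sum_mul_sum]
  apply sum_congr rfl
  intro d1 hd1
  rw [sum_comm]
  apply sum_congr rfl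
  intro d2 hd2
  rw [sum_ite_eq', if_pos]
  rw [Nat.mem_divisors] at hd1 hd2 ⊢
  exact ⟨Nat.lcm_dvd hd1.1 hd2.1, hd1.2⟩

theorem sum_sq_le {s : BoundingSieve} {R : ℕ} (hR : 1 ≤ R) {A B : ℝ} (hA : 0 ≤ A) (hB : 0 ≤ B)
    (hw : ∀ d ∈ Nat.divisors s.prodPrimes, d ≤ R → s.selbergTerms d / s.nu d ≤ A)
    (hr : ∀ d ∈ Nat.divisors s.prodPrimes, d ≤ R ^ 2 → |s.rem d| ≤ B) :
    ∑ n ∈ s.support, s.weights n * W s R n ^ 2 ≤ s.totalMass / JJ s R + B * (R * A) ^ 2 := by
  have h2 := errSum_le (s := s) R hA hB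
    (fun d hd hdR => (ww_bound R hR hd).trans (hw d hd hdR)) hr
  have h3 := mainSum_eq (s := s) R hR
  have h4 : ∑ n ∈ s.support, s.weights n * W s R n ^ 2 =
      ∑ d ∈ Nat.divisors s.prodPrimes, lambdaSquared (ww s R) d * s.multSum d := by
    calc ∑ n ∈ s.support, s.weights n * W s R n ^ 2
        = ∑ n ∈ s.support, s.weights n *
            ∑ d ∈ (Nat.gcd s.prodPrimes n).divisors, lambdaSquared (ww s R) d := by
          apply sum_congr rfl
          intro n _
          rw [lamsq_sum]
          rfl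
      _ = ∑ n ∈ s.support, ∑ d ∈ Nat.divisors s.prodPrimes,
            if d ∣ n then s.weights n * lambdaSquared (ww s R) d else 0 := by
          apply sum_congr rfl
          intro n _
          rw [mul_sum, ← sum_filter]
          apply sum_congr _ fun _ _ => rfl
          rw [← Nat.divisors_filter_dvd_of_dvd prodPrimes_ne_zero (Nat.gcd_dvd_left _ _)]
          ext x
          simp +contextual [Nat.dvd_gcd_iff]
      _ = _ := by
          rw [sum_comm]
          apply sum_congr rfl
          intro d _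
          rw [multSum, mul_sum]
          apply sum_congr rfl
          intro n _
          split_ifs <;> ring
  rw [h4]
  calc ∑ d ∈ Nat.divisors s.prodPrimes, lambdaSquared (ww s R) d * s.multSum d
      = s.totalMass * s.mainSum (lambdaSquared (ww s R)) +
          ∑ d ∈ Nat.divisors s.prodPrimes, lambdaSquared (ww s R) d * s.rem d := by
        rw [mainSum, mul_sum, ← sum_add_distrib]
        apply sum_congr rfl
        intro d _
        rw [rem]
        ring
    _ ≤ s.totalMass * s.mainSum (lambdaSquared (ww s R)) + s.errSum (lambdaSquared (ww s R)) := by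
        rw [errSum]
        apply add_le_add le_rfl
        apply sum_le_sum
        intro d _
        rw [← abs_mul]
        exact le_abs_self _
    _ ≤ s.totalMass * (1 / JJ s R) + B * (R * A) ^ 2 := by rw [h3]; linarith
    _ = _ := by ring

/-- the mean square over the progression `a + t q`, `t < N` -/
theorem ap_sq (a q N R : ℕ) (hq : 1 ≤ q) (hR : 1 ≤ R) :
    ∑ t ∈ range N, W (apSieve a q N R) R (a + t * q) ^ 2 ≤
      N / JJ (apSieve a q N R) R + ((R : ℝ) * (1 + Real.log R / Real.log 2)) ^ 2 := by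
  classical
  set s := apSieve a q N R with hs
  have hlogR : 0 ≤ Real.log R := Real.log_nonneg (by exact_mod_cast hR)
  have hl2 : 0 < Real.log 2 := Real.log_pos (by norm_num)
  have h := sum_sq_le (s := s) (R := R) hR
    (A := 1 + Real.log R / Real.log 2) (B := 1) (by positivity) zero_le_one
    (by
      intro d hd hdR
      have hd' := Nat.dvd_of_mem_divisors hd
      have hd0 : d ≠ 0 := (Nat.pos_of_mem_divisors hd).ne'
      rw [BoundingSieve.selbergTerms_apply]
      change ((d : ℝ)⁻¹ * ∏ p ∈ d.primeFactors, (1 - (p : ℝ)⁻¹)⁻¹) / (d : ℝ)⁻¹ ≤ _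
      have hdr : (d : ℝ) ≠ 0 := by exact_mod_cast hd0
      rw [mul_div_assoc, mul_comm, div_mul_cancel₀ _ (inv_ne_zero hdr)]
      refine (Pool.Agent.H617R3.BT.prod_le_card _ fun p hp =>
        (Nat.prime_of_mem_primeFactors hp).two_le).trans ?_
      have h1 := Pool.Agent.H617R3.BT.card_primeFactors_le hd0
      have h2 : Real.log d ≤ Real.log R := by
        apply Real.log_le_log (by exact_mod_cast Nat.pos_of_ne_zero hd0)
        exact_mod_cast hdR
      have h3 : Real.log d / Real.log 2 ≤ Real.log R / Real.log 2 := by gcongr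
      linarith)
    (by
      intro d hd _
      exact apSieve_rem hq (Nat.dvd_of_mem_divisors hd))
  rw [one_mul] at h
  refine le_trans (le_of_eq ?_) h
  change _ = ∑ n ∈ (range N).image (fun k => a + k * q), (1 : ℝ) * W s R n ^ 2
  rw [sum_image]
  · apply sum_congr rfl
    intro t _
    rw [one_mul]
  · intro x _ y _ hxy
    simp only at hxy
    exact Nat.eq_of_mul_eq_mul_right hq (by omega)

/-- the lower bound for `J` -/
theorem JJ_ge (a q N R : ℕ) (hq : 1 ≤ q) :
    ((Nat.totient q : ℝ) / q) * Real.log ((R : ℝ) + 1) ≤ JJ (apSieve a q N R) R := by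
  have h1 := Pool.Agent.H307R2.OP.BT4P.selS_ge2 (a := a) (q := q) (N := N) (R := R) hq
  refine h1.trans (le_of_eq ?_)
  unfold selS JJ
  apply Finset.sum_congr _ fun _ _ => rfl
  ext l
  simp only [Finset.mem_filter, Nat.cast_le]

/-- the divisor sum is `1` if no sieving prime divides `n` -/
theorem W_one {a q N R n : ℕ} (hR : 1 ≤ R) (h : ∀ p : ℕ, p.Prime → p ≤ R → ¬ p ∣ q → ¬ p ∣ n) :
    W (apSieve a q N R) R n = 1 := by
  have hg : Nat.gcd (PP q R) n = 1 := by
    by_contra hne
    obtain ⟨p, hp, hpd⟩ := Nat.exists_prime_and_dvd hne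
    have h1 := (prime_dvd_PP hp).1 (hpd.trans (Nat.gcd_dvd_left _ _))
    exact h p hp h1.1 h1.2 (hpd.trans (Nat.gcd_dvd_right _ _))
  unfold W
  change ∑ d ∈ (Nat.gcd (PP q R) n).divisors, _ = _
  rw [hg, Nat.divisors_one, sum_singleton, ww_one R hR]

/-- the divisor sum if exactly one sieving prime `p` divides `n` -/
theorem W_prime {a q N R n p : ℕ} (hR : 1 ≤ R) (hp : p.Prime) (hpR : p ≤ R) (hpq : ¬ p ∣ q)
    (hpn : p ∣ n) (h : ∀ l : ℕ, l.Prime → l ≤ R → ¬ l ∣ q → l ∣ n → l = p) :
    W (apSieve a q N R) R n = 1 + ww (apSieve a q N R) R p := by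
  have hsq : Squarefree (Nat.gcd (PP q R) n) :=
    (PP_squarefree q R).squarefree_of_dvd (Nat.gcd_dvd_left _ _)
  have hg : Nat.gcd (PP q R) n = p := by
    rw [← Nat.prod_primeFactors_of_squarefree hsq]
    have : (Nat.gcd (PP q R) n).primeFactors = {p} := by
      ext l
      rw [mem_singleton, Nat.mem_primeFactors]
      constructor
      · rintro ⟨h1, h2, -⟩
        have h3 := (prime_dvd_PP h1).1 (h2.trans (Nat.gcd_dvd_left _ _))
        exact h l h1 h3.1 h3.2 (h2.trans (Nat.gcd_dvd_right _ _))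
      · rintro rfl
        exact ⟨hp, Nat.dvd_gcd ((prime_dvd_PP hp).2 ⟨hpR, hpq⟩) hpn, hsq.ne_zero⟩
    rw [this, prod_singleton]
  unfold W
  change ∑ d ∈ (Nat.gcd (PP q R) n).divisors, _ = _
  rw [hg, hp.divisors, sum_insert (by
    rw [mem_singleton]
    exact hp.one_lt.ne), sum_singleton, ww_one R hR]

end Pool.Agent.E8helper28.BT
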