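import Pool.Agent.E8helper28.BT.Ker
import Pool.Agent.Erdos456.Mertens

set_option autoImplicit false

/-!
# A lower bound for `1 + ww p`
-/

namespace Pool.Agent.E8helper28.BT

open Finset BoundingSieve ArithmeticFunction
open Pool.Agent.Erdos456.SieveAux (JJ ww JJ_pos ww_one ww_bound ww_zero mainSum_eq errSum_le P_ne
  g_pos)
open Pool.Agent.Helper923.PPS

theorem ww_ge {a q N R p : ℕ} (hR : 1 ≤ R) (hp : p.Prime) (hpR : p ≤ R) (hpq : ¬ p ∣ q) :
    (JJ (apSieve a q N R) R - JP a q N R p) / JJ (apSieve a q N R) R - 1 / ((p : ℝ) - 1) ≤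
      1 + ww (apSieve a q N R) R p := by
  classical
  set s := apSieve a q N R with hs
  have hP : s.prodPrimes = PP q R := rfl
  have hpd : p ∈ Nat.divisors s.prodPrimes := by
    rw [Nat.mem_divisors, hP]
    exact ⟨(prime_dvd_PP hp).2 ⟨hpR, hpq⟩, (PP_squarefree q R).ne_zero⟩
  have hJ := JJ_pos (s := s) R hR
  have hp2 : (2 : ℝ) ≤ p := by exact_mod_cast hp.two_le
  have hg : s.selbergTerms p = 1 / ((p : ℝ) - 1) := by
    rw [BoundingSieve.selbergTerms_apply]
    change (p : ℝ)⁻¹ * ∏ l ∈ p.primeFactors, (1 - (l : ℝ)⁻¹)⁻¹ = _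
    rw [hp.primeFactors, prod_singleton]
    have h1 : (p : ℝ) ≠ 0 := by linarith
    have h2 : (p : ℝ) - 1 ≠ 0 := by linarith
    have h3 : 1 - (p : ℝ)⁻¹ ≠ 0 := by
      rw [sub_ne_zero]
      intro h
      have := inv_lt_one_of_one_lt₀ (show (1 : ℝ) < p by linarith)
      linarith
    field_simp
  have hsum : ∑ k ∈ (Nat.divisors s.prodPrimes).filter (fun k => p ∣ k ∧ k ≤ R), s.selbergTerms k
      ≤ s.selbergTerms p * JP a q N R p := by
    unfold JP
    rw [Finset.mul_sum]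
    have h1 : ∑ k ∈ (Nat.divisors s.prodPrimes).filter (fun k => p ∣ k ∧ k ≤ R), s.selbergTerms k
        = ∑ m ∈ ((Nat.divisors s.prodPrimes).filter (fun k => p ∣ k ∧ k ≤ R)).image (fun k => k / p),
          s.selbergTerms p * s.selbergTerms m := by
      rw [Finset.sum_image]
      · apply Finset.sum_congr rfl
        intro k hk
        rw [mem_filter, Nat.mem_divisors] at hk
        have h2 : k = p * (k / p) := (Nat.mul_div_cancel' hk.2.1).symm
        have h3 : Nat.Coprime p (k / p) := by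
          apply Nat.coprime_of_squarefree_mul
          rw [← h2]; exact s.prodPrimes_squarefree.squarefree_of_dvd hk.1.1
        conv_lhs => rw [h2]
        exact selbergTerms_isMultiplicative.map_mul_of_coprime h3
      · intro a ha b hb hab
        simp only [coe_filter, Nat.mem_divisors, Set.mem_ofPred_eq] at ha hb
        simp only at hab
        rw [← Nat.mul_div_cancel' ha.2.1, ← Nat.mul_div_cancel' hb.2.1, hab]
    rw [h1]
    apply Finset.sum_le_sum_of_subset_of_nonneg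
    · intro m hm
      rw [mem_image] at hm
      obtain ⟨k, hk, rfl⟩ := hm
      rw [mem_filter, Nat.mem_divisors] at hk
      rw [mem_filter, Nat.mem_divisors]
      refine ⟨⟨(Nat.div_dvd_of_dvd hk.2.1).trans hk.1.1, P_ne s⟩, ?_⟩
      rw [Nat.div_mul_cancel hk.2.1]
      exact hk.2.2
    · intro m hm _
      exact mul_nonneg (g_pos hpd).le (g_pos (mem_filter.1 hm).1).le
  have hJP0 : 0 ≤ JP a q N R p := sum_nonneg fun m hm => (g_pos (mem_filter.1 hm).1).le
  have hJPJ : JP a q N R p ≤ JJ s R := by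
    unfold JP JJ
    apply sum_le_sum_of_subset_of_nonneg
    · intro m hm
      rw [mem_filter] at hm ⊢
      exact ⟨hm.1, (Nat.le_mul_of_pos_right m hp.pos).trans hm.2⟩
    · intro m hm _
      exact (g_pos (mem_filter.1 hm).1).le
  have hww : ww s R p = - ((p : ℝ) / JJ s R *
      ∑ k ∈ (Nat.divisors s.prodPrimes).filter (fun k => p ∣ k ∧ k ≤ R), s.selbergTerms k) := by
    unfold ww
    rw [moebius_apply_prime hp]
    change ((-1 : ℤ) : ℝ) / ((p : ℝ)⁻¹ * JJ s R) * _ = _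
    have h1 : (p : ℝ) ≠ 0 := by linarith
    have h2 := hJ.ne'
    push_cast
    field_simp
  have hle : (p : ℝ) / JJ s R *
      ∑ k ∈ (Nat.divisors s.prodPrimes).filter (fun k => p ∣ k ∧ k ≤ R), s.selbergTerms k ≤
      (p : ℝ) / JJ s R * (1 / ((p : ℝ) - 1) * JP a q N R p) := by
    rw [← hg]
    apply mul_le_mul_of_nonneg_left hsum
    positivity
  rw [hww]
  have hfin : (p : ℝ) / JJ s R * (1 / ((p : ℝ) - 1) * JP a q N R p) =
      JP a q N R p / JJ s R + 1 / ((p : ℝ) - 1) * (JP a q N R p / JJ s R) := by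
    have h2 := hJ.ne'
    have h3 : (p : ℝ) - 1 ≠ 0 := by linarith
    field_simp
    ring
  have hx : JP a q N R p / JJ s R ≤ 1 := by
    rw [div_le_one hJ]
    exact hJPJ
  have hy : 0 ≤ 1 / ((p : ℝ) - 1) := by
    apply div_nonneg zero_le_one
    linarith
  have hz : 1 / ((p : ℝ) - 1) * (JP a q N R p / JJ s R) ≤ 1 / ((p : ℝ) - 1) :=
    mul_le_of_le_one_right hy hx
  have hw : (JJ s R - JP a q N R p) / JJ s R = 1 - JP a q N R p / JJ s R := by
    rw [sub_div, div_self hJ.ne']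
  rw [hw]
  linarith

/-- reciprocals in a long interval -/
theorem recip_ge {R U : ℕ} (hU : 1 ≤ U) (hUR : U ≤ R) :
    Real.log U - 1 ≤ ∑ n ∈ (Icc 1 R).filter (fun n => R < n * U), (n : ℝ)⁻¹ := by
  classical
  have hR : 1 ≤ R := hU.trans hUR
  have hd : 1 ≤ R / U := (Nat.one_le_div_iff hU).2 hUR
  have h1 : ∑ n ∈ Icc 1 R, (n : ℝ)⁻¹ = (harmonic R : ℝ) := by
    rw [harmonic_eq_sum_Icc]
    push_cast
    rfl
  have h2 : ∑ n ∈ Icc 1 (R / U), (n : ℝ)⁻¹ = (harmonic (R / U) : ℝ) := by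
    rw [harmonic_eq_sum_Icc]
    push_cast
    rfl
  have h3 : (Icc 1 R).filter (fun n => R < n * U) = Icc 1 R \ Icc 1 (R / U) := by
    ext n
    rw [mem_filter, mem_sdiff, mem_Icc, mem_Icc]
    have : R < n * U ↔ R / U < n := (Nat.div_lt_iff_lt_mul hU).symm
    rw [this]
    constructor
    · rintro ⟨⟨h1, h2⟩, h3⟩
      exact ⟨⟨h1, h2⟩, fun h => absurd h.2 (by omega)⟩
    · rintro ⟨⟨h1, h2⟩, h3⟩
      refine ⟨⟨h1, h2⟩, ?_⟩
      by_contra h
      exact h3 ⟨h1, by omega⟩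
  have h4 : Icc 1 (R / U) ⊆ Icc 1 R := Icc_subset_Icc_right (Nat.div_le_self _ _)
  rw [h3]
  have h5 := sum_sdiff (f := fun n : ℕ => (n : ℝ)⁻¹) h4
  rw [h1, h2] at h5
  have h6 := log_add_one_le_harmonic R
  have h7 := harmonic_le_one_add_log (R / U)
  have h8 : Real.log ((R / U : ℕ) : ℝ) ≤ Real.log R - Real.log U := by
    rw [← Real.log_div (by positivity) (by positivity)]
    apply Real.log_le_log (by exact_mod_cast hd)
    exact Nat.cast_div_le
  have h9 : Real.log R ≤ Real.log ((R + 1 : ℕ) : ℝ) := by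
    apply Real.log_le_log (by exact_mod_cast hR)
    exact_mod_cast Nat.le_succ R
  linarith

/-- the number of primes above `U` which divide `m` -/
theorem big_primes {m U : ℕ} (hm : m ≠ 0) (hU : 2 ≤ U) :
    (((m.primeFactors.filter (fun l => U < l)).card : ℕ) : ℝ) * Real.log U ≤ Real.log m := by
  have h1 : U ^ (m.primeFactors.filter (fun l => U < l)).card ≤ m := by
    calc U ^ (m.primeFactors.filter (fun l => U < l)).card
        = ∏ _l ∈ m.primeFactors.filter (fun l => U < l), U := by rw [prod_const]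
      _ ≤ ∏ l ∈ m.primeFactors.filter (fun l => U < l), l :=
          prod_le_prod' fun l hl => (mem_filter.1 hl).2.le
      _ ≤ m := Nat.le_of_dvd (Nat.pos_of_ne_zero hm)
          ((prod_dvd_prod_of_subset _ _ _ (filter_subset _ _)).trans (Nat.prod_primeFactors_dvd m))
  have hU0 : (0 : ℝ) < U := by positivity
  have h2 : Real.log ((U : ℝ) ^ (m.primeFactors.filter (fun l => U < l)).card) ≤ Real.log m := by
    apply Real.log_le_log (by positivity)
    exact_mod_cast h1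
  rwa [Real.log_pow] at h2

/-- reciprocals of the primes in `(U, U²]` -/
theorem mid_primes : ∃ U₀ : ℕ, 2 ≤ U₀ ∧ ∀ U : ℕ, U₀ ≤ U →
    1 / 4 ≤ ∑ l ∈ (Ioc U (U ^ 2)).filter Nat.Prime, (l : ℝ)⁻¹ := by
  obtain ⟨C, hC⟩ := Pool.Agent.Erdos456.Mert.mertens_log
  have hev := (Real.tendsto_log_atTop.comp (tendsto_natCast_atTop_atTop (R := ℝ))).eventually
    (Filter.eventually_ge_atTop (4 * |C| + 1))
  obtain ⟨U₁, hU₁⟩ := Filter.eventually_atTop.1 hev
  refine ⟨max U₁ 2, le_max_right _ _, fun U hU => ?_⟩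
  have hU1 : 4 * |C| + 1 ≤ Real.log U := hU₁ U (by omega)
  have hU2 : 2 ≤ U := by omega
  have hUU : U ≤ U ^ 2 := by nlinarith
  have hUr : (2 : ℝ) ≤ U := by exact_mod_cast hU2
  have h1 := hC U (by omega)
  have h2 := hC (U ^ 2) (by omega)
  have h3 : Real.log ((U ^ 2 : ℕ) : ℝ) = 2 * Real.log U := by
    push_cast
    rw [Real.log_pow]
    norm_num
  rw [h3] at h2
  have h4 : ∑ l ∈ (Ioc U (U ^ 2)).filter Nat.Prime, Real.log l / l +
      ∑ l ∈ (Icc 1 U).filter Nat.Prime, Real.log l / l =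
      ∑ l ∈ (Icc 1 (U ^ 2)).filter Nat.Prime, Real.log l / l := by
    rw [← sum_union]
    · apply sum_congr _ fun _ _ => rfl
      rw [← filter_union]
      congr 1
      ext l
      rw [mem_union, mem_Ioc, mem_Icc, mem_Icc]
      omega
    · rw [disjoint_left]
      intro l h1 h2
      rw [mem_filter, mem_Ioc] at h1
      rw [mem_filter, mem_Icc] at h2
      omega
  have h5 := abs_le.1 h1
  have h6 := abs_le.1 h2
  have h7 : Real.log U - 2 * |C| ≤ ∑ l ∈ (Ioc U (U ^ 2)).filter Nat.Prime, Real.log l / l := by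
    have := le_abs_self C
    linarith
  have h8 : ∑ l ∈ (Ioc U (U ^ 2)).filter Nat.Prime, Real.log l / l ≤
      2 * Real.log U * ∑ l ∈ (Ioc U (U ^ 2)).filter Nat.Prime, (l : ℝ)⁻¹ := by
    rw [mul_sum]
    apply sum_le_sum
    intro l hl
    rw [mem_filter, mem_Ioc] at hl
    rw [div_eq_mul_inv]
    apply mul_le_mul_of_nonneg_right _ (by positivity)
    rw [← h3]
    apply Real.log_le_log
    · exact_mod_cast hl.2.pos
    · exact_mod_cast hl.1.2
  have hlog : 0 < Real.log U := by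
    have := abs_nonneg C
    linarith
  have h9 : Real.log U / 2 ≤ Real.log U - 2 * |C| := by linarith
  have h10 : Real.log U * (1 / 2) ≤
      Real.log U * (2 * ∑ l ∈ (Ioc U (U ^ 2)).filter Nat.Prime, (l : ℝ)⁻¹) := by
    have := h9.trans (h7.trans h8)
    linarith
  have h11 := le_of_mul_le_mul_left h10 hlog
  linarith

/-- the lower bound for `K (J - JP)` -/
theorem diff_ge {a q N R U p : ℕ} {M : ℝ} (hq : 1 ≤ q) (hU : 2 ≤ U) (hUR : U ≤ R)
    (hp : U ^ 2 ≤ p) (hσ : 1 / 4 ≤ ∑ l ∈ (Ioc U (U ^ 2)).filter Nat.Prime, (l : ℝ)⁻¹)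
    (hM : Real.log ((R : ℝ) * U ^ 2) ≤ M * Real.log U) :
    Real.log U - 1 - 4 * M * (((q : ℝ) / Nat.totient q) * JJ (apSieve a q N R) R -
        Real.log ((R : ℝ) + 1)) ≤
      ((q : ℝ) / Nat.totient q) * (JJ (apSieve a q N R) R - JP a q N R p) := by
  classical
  have hR : 1 ≤ R := by omega
  obtain ⟨S1, hS1⟩ : ∃ S1 : Finset ℕ, S1 = (Icc 1 R).filter (fun n => R < n * U) := ⟨_, rfl⟩
  obtain ⟨S2, hS2⟩ : ∃ S2 : Finset ℕ, S2 = S1.filter (fun n => ker q n * U ^ 2 ≤ R) := ⟨_, rfl⟩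
  obtain ⟨S3, hS3⟩ : ∃ S3 : Finset ℕ, S3 = (Ioc R (R * U ^ 2)).filter (fun m => ker q m ≤ R) :=
    ⟨_, rfl⟩
  obtain ⟨Q, hQ⟩ : ∃ Q : Finset ℕ, Q = (Ioc U (U ^ 2)).filter Nat.Prime := ⟨_, rfl⟩
  rw [← hQ] at hσ
  have hlogU : 0 < Real.log U := Real.log_pos (by exact_mod_cast (by omega : 1 < U))
  have hM0 : 0 ≤ M := by
    by_contra h
    have h1 : 0 ≤ Real.log ((R : ℝ) * U ^ 2) := by
      apply Real.log_nonneg
      exact_mod_cast Nat.mul_pos hR (by positivity)
    have h2 : M * Real.log U < 0 := mul_neg_of_neg_of_pos (by linarith) hlogU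
    linarith
  -- the excess
  have hex : ∑ m ∈ S3, (m : ℝ)⁻¹ ≤ ((q : ℝ) / Nat.totient q) * JJ (apSieve a q N R) R -
        Real.log ((R : ℝ) + 1) := by
    have h1 := ker_sum_le a q N R hq (Icc 1 R ∪ S3) (by
      intro n hn
      rw [mem_union, mem_Icc, hS3, mem_filter, mem_Ioc] at hn
      rcases hn with h | h
      · exact ⟨by omega, (Nat.le_of_dvd (by omega) (ker_dvd q n)).trans h.2⟩
      · exact ⟨by omega, h.2⟩)
    rw [sum_union] at h1
    · have h2 : ∑ n ∈ Icc 1 R, (n : ℝ)⁻¹ = (harmonic R : ℝ) := by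
        rw [harmonic_eq_sum_Icc]
        push_cast
        rfl
      have h3 := log_add_one_le_harmonic R
      push_cast at h3
      rw [h2] at h1
      linarith
    · rw [disjoint_left]
      intro n h1 h2
      rw [mem_Icc] at h1
      rw [hS3, mem_filter, mem_Ioc] at h2
      omega
  -- the products
  have hprod : (∑ n ∈ S2, (n : ℝ)⁻¹) * (∑ l ∈ Q, (l : ℝ)⁻¹) ≤ M * ∑ m ∈ S3, (m : ℝ)⁻¹ := by
    rw [sum_mul_sum, ← sum_product']
    have hmaps : ∀ z ∈ S2 ×ˢ Q, z.1 * z.2 ∈ S3 := by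
      intro z hz
      rw [mem_product, hS2, mem_filter, hS1, mem_filter, mem_Icc, hQ, mem_filter, mem_Ioc] at hz
      obtain ⟨⟨⟨⟨h1, h2⟩, h3⟩, h4⟩, ⟨h5, h6⟩, h7⟩ := hz
      rw [hS3, mem_filter, mem_Ioc]
      refine ⟨⟨?_, Nat.mul_le_mul h2 h6⟩, ?_⟩
      · exact h3.trans_le (Nat.mul_le_mul_left _ h5.le)
      · exact (ker_mul_prime_le q z.1 z.2 (by omega) h7).trans
          ((Nat.mul_le_mul_left _ h6).trans h4)
    rw [← sum_fiberwise_of_maps_to hmaps, mul_sum]
    apply sum_le_sum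
    intro m hm
    have hm0 : m ≠ 0 := by
      rw [hS3, mem_filter, mem_Ioc] at hm
      omega
    have hmR : m ≤ R * U ^ 2 := by
      rw [hS3, mem_filter, mem_Ioc] at hm
      exact hm.1.2
    have h1 : ∀ z ∈ (S2 ×ˢ Q).filter (fun z => z.1 * z.2 = m), ((z.1 : ℝ)⁻¹ * (z.2 : ℝ)⁻¹) =
        (m : ℝ)⁻¹ := by
      intro z hz
      rw [mem_filter] at hz
      rw [← mul_inv, ← hz.2]
      push_cast
      rfl
    rw [sum_congr rfl h1, sum_const, nsmul_eq_mul]
    apply mul_le_mul_of_nonneg_right _ (by positivity)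
    have h2 : ((S2 ×ˢ Q).filter (fun z => z.1 * z.2 = m)).card ≤
        (m.primeFactors.filter (fun l => U < l)).card := by
      apply card_le_card_of_injOn (fun z => z.2)
      · intro z hz
        rw [mem_coe, mem_filter, mem_product, hQ, mem_filter, mem_Ioc] at hz
        rw [mem_coe, mem_filter, Nat.mem_primeFactors]
        exact ⟨⟨hz.1.2.2, ⟨z.1, by rw [← hz.2, mul_comm]⟩, hm0⟩, hz.1.2.1.1⟩
      · intro z hz w hw hzw
        rw [mem_coe, mem_filter] at hz hw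
        simp only at hzw
        have h3 : z.1 * z.2 = w.1 * z.2 := by rw [hz.2, hzw, hw.2]
        have h4 : 0 < z.2 := by
          rcases Nat.eq_zero_or_pos z.2 with h | h
          · rw [h, mul_zero] at hz
            exact absurd hz.2.symm hm0
          · exact h
        exact Prod.ext (Nat.eq_of_mul_eq_mul_right h4 h3) hzw
    have h3 := big_primes hm0 hU
    have h4 : Real.log m ≤ Real.log ((R : ℝ) * U ^ 2) := by
      apply Real.log_le_log
      · exact_mod_cast Nat.pos_of_ne_zero hm0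
      · exact_mod_cast hmR
    have h5 : (((m.primeFactors.filter (fun l => U < l)).card : ℕ) : ℝ) * Real.log U ≤
        M * Real.log U := h3.trans (h4.trans hM)
    have h6 := le_of_mul_le_mul_right h5 hlogU
    have h7 : (((S2 ×ˢ Q).filter (fun z => z.1 * z.2 = m)).card : ℝ) ≤
        (((m.primeFactors.filter (fun l => U < l)).card : ℕ) : ℝ) := by exact_mod_cast h2
    exact h7.trans h6
  have hS2n : 0 ≤ ∑ n ∈ S2, (n : ℝ)⁻¹ := sum_nonneg fun _ _ => by positivity
  have hS2b : ∑ n ∈ S2, (n : ℝ)⁻¹ ≤ 4 * M * ∑ m ∈ S3, (m : ℝ)⁻¹ := by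
    have h1 : (∑ n ∈ S2, (n : ℝ)⁻¹) * (1 / 4) ≤ (∑ n ∈ S2, (n : ℝ)⁻¹) * (∑ l ∈ Q, (l : ℝ)⁻¹) :=
      mul_le_mul_of_nonneg_left hσ hS2n
    linarith
  have hdiff := ker_sum_diff a q N R p hq (by nlinarith) (S1 \ S2) (by
    intro n hn
    rw [mem_sdiff, hS2, mem_filter, hS1, mem_filter, mem_Icc] at hn
    obtain ⟨⟨⟨h1, h2⟩, h3⟩, h4⟩ := hn
    have h5 : ¬ ker q n * U ^ 2 ≤ R := fun h => h4 ⟨⟨⟨h1, h2⟩, h3⟩, h⟩
    refine ⟨by omega, (Nat.le_of_dvd (by omega) (ker_dvd q n)).trans h2, ?_⟩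
    exact (lt_of_not_ge h5).trans_le (Nat.mul_le_mul_left _ hp))
  have hsub : S2 ⊆ S1 := by
    rw [hS2]
    exact filter_subset _ _
  have h1 := sum_sdiff (f := fun n : ℕ => (n : ℝ)⁻¹) hsub
  have h2 := recip_ge (R := R) (U := U) (by omega) hUR
  rw [← hS1] at h2
  have h3 : 4 * M * ∑ m ∈ S3, (m : ℝ)⁻¹ ≤
      4 * M * (((q : ℝ) / Nat.totient q) * JJ (apSieve a q N R) R - Real.log ((R : ℝ) + 1)) :=
    mul_le_mul_of_nonneg_left hex (by linarith)
  linarith

end Pool.Agent.E8helper28.BT
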