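import Pool.Agent.E8helper28.BT.Low

set_option autoImplicit false

/-!
# Selberg's weights at general divisors
-/

namespace Pool.Agent.E8helper28.BT

open Finset BoundingSieve ArithmeticFunction
open scoped ArithmeticFunction.Moebius
open Pool.Agent.Erdos456.SieveAux (JJ ww JJ_pos ww_one ww_bound ww_zero mainSum_eq errSum_le P_ne
  g_pos)
open Pool.Agent.Helper923.PPS

/-- the lower bound for `K (J - JP d)` -/
theorem diff_ge2 {a q N R V d : ℕ} {M σ : ℝ} (hq : 1 ≤ q) (hV : 2 ≤ V) (hVR : V ≤ R)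
    (hd : 1 ≤ d) (hσ0 : 0 < σ) (hσ : σ ≤ ∑ l ∈ (Ioc V d).filter Nat.Prime, (l : ℝ)⁻¹)
    (hM : Real.log ((R : ℝ) * d) ≤ M * Real.log V) :
    Real.log V - 1 - M / σ * (((q : ℝ) / Nat.totient q) * JJ (apSieve a q N R) R -
        Real.log ((R : ℝ) + 1)) ≤
      ((q : ℝ) / Nat.totient q) * (JJ (apSieve a q N R) R - JP a q N R d) := by
  classical
  have hR : 1 ≤ R := by omega
  obtain ⟨S1, hS1⟩ : ∃ S1 : Finset ℕ, S1 = (Icc 1 R).filter (fun n => R < n * V) := ⟨_, rfl⟩
  obtain ⟨S2, hS2⟩ : ∃ S2 : Finset ℕ, S2 = S1.filter (fun n => ker q n * d ≤ R) := ⟨_, rfl⟩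
  obtain ⟨S3, hS3⟩ : ∃ S3 : Finset ℕ, S3 = (Ioc R (R * d)).filter (fun m => ker q m ≤ R) :=
    ⟨_, rfl⟩
  obtain ⟨Q, hQ⟩ : ∃ Q : Finset ℕ, Q = (Ioc V d).filter Nat.Prime := ⟨_, rfl⟩
  rw [← hQ] at hσ
  have hlogV : 0 < Real.log V := Real.log_pos (by exact_mod_cast (by omega : 1 < V))
  have hM0 : 0 ≤ M := by
    by_contra h
    have h1 : 0 ≤ Real.log ((R : ℝ) * d) := by
      apply Real.log_nonneg
      exact_mod_cast Nat.mul_pos hR hd
    have h2 : M * Real.log V < 0 := mul_neg_of_neg_of_pos (by linarith) hlogV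
    linarith
  -- the excess
  have hex : ∑ m ∈ S3, (m : ℝ)⁻¹ ≤ ((q : ℝ) / Nat.totient q) * JJ (apSieve a q N R) R -
        Real.log ((R : ℝ) + 1) := by
    have h1 := ker_sum_le a q N R hq (Icc 1 R ∪ S3) (by
      intro n hn
      rw [mem_union, mem_Icc, hS3, mem_filter, mem_Ioc] at hn
      rcases hn with h | h
      · exact ⟨by omega, (Nat.le_of_dvd (by omega) (ker_dvd q n)).trans h.2⟩
      · exact ⟨by omega, h.2⟩)
    rw [sum_union] at h1
    · have h2 : ∑ n ∈ Icc 1 R, (n : ℝ)⁻¹ = (harmonic R : ℝ) := by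
        rw [harmonic_eq_sum_Icc]
        push_cast
        rfl
      have h3 := log_add_one_le_harmonic R
      push_cast at h3
      rw [h2] at h1
      linarith
    · rw [disjoint_left]
      intro n h1 h2
      rw [mem_Icc] at h1
      rw [hS3, mem_filter, mem_Ioc] at h2
      omega
  -- the products
  have hprod : (∑ n ∈ S2, (n : ℝ)⁻¹) * (∑ l ∈ Q, (l : ℝ)⁻¹) ≤ M * ∑ m ∈ S3, (m : ℝ)⁻¹ := by
    rw [sum_mul_sum, ← sum_product']
    have hmaps : ∀ z ∈ S2 ×ˢ Q, z.1 * z.2 ∈ S3 := by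
      intro z hz
      rw [mem_product, hS2, mem_filter, hS1, mem_filter, mem_Icc, hQ, mem_filter, mem_Ioc] at hz
      obtain ⟨⟨⟨⟨h1, h2⟩, h3⟩, h4⟩, ⟨h5, h6⟩, h7⟩ := hz
      rw [hS3, mem_filter, mem_Ioc]
      refine ⟨⟨?_, Nat.mul_le_mul h2 h6⟩, ?_⟩
      · exact h3.trans_le (Nat.mul_le_mul_left _ h5.le)
      · exact (ker_mul_prime_le q z.1 z.2 (by omega) h7).trans
          ((Nat.mul_le_mul_left _ h6).trans h4)
    rw [← sum_fiberwise_of_maps_to hmaps, mul_sum]
    apply sum_le_sum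
    intro m hm
    have hm0 : m ≠ 0 := by
      rw [hS3, mem_filter, mem_Ioc] at hm
      omega
    have hmR : m ≤ R * d := by
      rw [hS3, mem_filter, mem_Ioc] at hm
      exact hm.1.2
    have h1 : ∀ z ∈ (S2 ×ˢ Q).filter (fun z => z.1 * z.2 = m), ((z.1 : ℝ)⁻¹ * (z.2 : ℝ)⁻¹) =
        (m : ℝ)⁻¹ := by
      intro z hz
      rw [mem_filter] at hz
      rw [← mul_inv, ← hz.2]
      push_cast
      rfl
    rw [sum_congr rfl h1, sum_const, nsmul_eq_mul]
    apply mul_le_mul_of_nonneg_right _ (by positivity)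
    have h2 : ((S2 ×ˢ Q).filter (fun z => z.1 * z.2 = m)).card ≤
        (m.primeFactors.filter (fun l => V < l)).card := by
      apply card_le_card_of_injOn (fun z => z.2)
      · intro z hz
        rw [mem_coe, mem_filter, mem_product, hQ, mem_filter, mem_Ioc] at hz
        rw [mem_coe, mem_filter, Nat.mem_primeFactors]
        exact ⟨⟨hz.1.2.2, ⟨z.1, by rw [← hz.2, mul_comm]⟩, hm0⟩, hz.1.2.1.1⟩
      · intro z hz w hw hzw
        rw [mem_coe, mem_filter] at hz hw
        simp only at hzw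
        have h3 : z.1 * z.2 = w.1 * z.2 := by rw [hz.2, hzw, hw.2]
        have h4 : 0 < z.2 := by
          rcases Nat.eq_zero_or_pos z.2 with h | h
          · rw [h, mul_zero] at hz
            exact absurd hz.2.symm hm0
          · exact h
        exact Prod.ext (Nat.eq_of_mul_eq_mul_right h4 h3) hzw
    have h3 := big_primes hm0 hV
    have h4 : Real.log m ≤ Real.log ((R : ℝ) * d) := by
      apply Real.log_le_log
      · exact_mod_cast Nat.pos_of_ne_zero hm0
      · exact_mod_cast hmR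
    have h5 : (((m.primeFactors.filter (fun l => V < l)).card : ℕ) : ℝ) * Real.log V ≤
        M * Real.log V := h3.trans (h4.trans hM)
    have h6 := le_of_mul_le_mul_right h5 hlogV
    have h7 : (((S2 ×ˢ Q).filter (fun z => z.1 * z.2 = m)).card : ℝ) ≤
        (((m.primeFactors.filter (fun l => V < l)).card : ℕ) : ℝ) := by exact_mod_cast h2
    exact h7.trans h6
  have hS2n : 0 ≤ ∑ n ∈ S2, (n : ℝ)⁻¹ := sum_nonneg fun _ _ => by positivity
  have hS2b : ∑ n ∈ S2, (n : ℝ)⁻¹ ≤ M / σ * ∑ m ∈ S3, (m : ℝ)⁻¹ := by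
    have h1 : (∑ n ∈ S2, (n : ℝ)⁻¹) * σ ≤ (∑ n ∈ S2, (n : ℝ)⁻¹) * (∑ l ∈ Q, (l : ℝ)⁻¹) :=
      mul_le_mul_of_nonneg_left hσ hS2n
    rw [div_mul_eq_mul_div, le_div_iff₀ hσ0]
    exact h1.trans hprod
  have hdiff := ker_sum_diff a q N R d hq hd (S1 \ S2) (by
    intro n hn
    rw [mem_sdiff, hS2, mem_filter, hS1, mem_filter, mem_Icc] at hn
    obtain ⟨⟨⟨h1, h2⟩, h3⟩, h4⟩ := hn
    have h5 : ¬ ker q n * d ≤ R := fun h => h4 ⟨⟨⟨h1, h2⟩, h3⟩, h⟩
    exact ⟨by omega, (Nat.le_of_dvd (by omega) (ker_dvd q n)).trans h2, lt_of_not_ge h5⟩)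
  have hsub : S2 ⊆ S1 := by
    rw [hS2]
    exact filter_subset _ _
  have h1 := sum_sdiff (f := fun n : ℕ => (n : ℝ)⁻¹) hsub
  have h2 := recip_ge (R := R) (U := V) (by omega) hVR
  rw [← hS1] at h2
  have h3 : M / σ * ∑ m ∈ S3, (m : ℝ)⁻¹ ≤
      M / σ * (((q : ℝ) / Nat.totient q) * JJ (apSieve a q N R) R - Real.log ((R : ℝ) + 1)) :=
    mul_le_mul_of_nonneg_left hex (by positivity)
  linarith

/-- reciprocals of the primes in `(V, d]` -/
theorem mid_primes2 : ∃ C : ℝ, 0 ≤ C ∧ ∀ V d : ℕ, 1 ≤ V → V ≤ d → 2 ≤ d →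
    (Real.log d - Real.log V - C) / Real.log d ≤
      ∑ l ∈ (Ioc V d).filter Nat.Prime, (l : ℝ)⁻¹ := by
  obtain ⟨C, hC⟩ := Pool.Agent.Erdos456.Mert.mertens_log
  refine ⟨2 * |C|, by positivity, fun V d hV hVd hd => ?_⟩
  have h1 := hC V hV
  have h2 := hC d (by omega)
  have h4 : ∑ l ∈ (Ioc V d).filter Nat.Prime, Real.log l / l +
      ∑ l ∈ (Icc 1 V).filter Nat.Prime, Real.log l / l =
      ∑ l ∈ (Icc 1 d).filter Nat.Prime, Real.log l / l := by
    rw [← sum_union]
    · apply sum_congr _ fun _ _ => rfl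
      rw [← filter_union]
      congr 1
      ext l
      rw [mem_union, mem_Ioc, mem_Icc, mem_Icc]
      omega
    · rw [disjoint_left]
      intro l h1 h2
      rw [mem_filter, mem_Ioc] at h1
      rw [mem_filter, mem_Icc] at h2
      omega
  have h5 := abs_le.1 h1
  have h6 := abs_le.1 h2
  have hCC := le_abs_self C
  have h7 : Real.log d - Real.log V - 2 * |C| ≤
      ∑ l ∈ (Ioc V d).filter Nat.Prime, Real.log l / l := by linarith
  have h8 : ∑ l ∈ (Ioc V d).filter Nat.Prime, Real.log l / l ≤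
      Real.log d * ∑ l ∈ (Ioc V d).filter Nat.Prime, (l : ℝ)⁻¹ := by
    rw [mul_sum]
    apply sum_le_sum
    intro l hl
    rw [mem_filter, mem_Ioc] at hl
    rw [div_eq_mul_inv]
    apply mul_le_mul_of_nonneg_right _ (by positivity)
    apply Real.log_le_log
    · exact_mod_cast hl.2.pos
    · exact_mod_cast hl.1.2
  have hlog : 0 < Real.log d := Real.log_pos (by exact_mod_cast (by omega : 1 < d))
  rw [div_le_iff₀ hlog]
  have h9 := h7.trans h8
  linarith

/-- the lower bound for `JP` -/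
theorem JP_ge (a q N R d : ℕ) (hq : 1 ≤ q) (hd : 1 ≤ d) :
    Real.log ((R : ℝ) + 1) - Real.log d ≤ ((q : ℝ) / Nat.totient q) * JP a q N R d := by
  classical
  have h1 := ker_sum a q N R hq (Icc 1 (R / d))
    ((PP q R).divisors.filter (fun m => m * d ≤ R)) (filter_subset _ _) (by
      intro n hn
      rw [mem_Icc] at hn
      have h2 : ker q n ≤ R / d := (Nat.le_of_dvd (by omega) (ker_dvd q n)).trans hn.2
      have h3 : ker q n * d ≤ R := (Nat.mul_le_mul_right _ h2).trans (Nat.div_mul_le_self _ _)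
      refine ⟨by omega, ?_⟩
      rw [mem_filter, Nat.mem_divisors]
      exact ⟨⟨dvd_PP_of_squarefree (ker_squarefree q n) (h2.trans (Nat.div_le_self _ _))
        (ker_coprime q n), (PP_squarefree q R).ne_zero⟩, h3⟩)
  refine le_trans ?_ h1
  have h2 : ∑ n ∈ Icc 1 (R / d), (n : ℝ)⁻¹ = (harmonic (R / d) : ℝ) := by
    rw [harmonic_eq_sum_Icc]
    push_cast
    rfl
  rw [h2]
  have h3 := log_add_one_le_harmonic (R / d)
  refine le_trans ?_ h3
  have hd0 : (0 : ℝ) < d := by exact_mod_cast hd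
  rw [← Real.log_div (by positivity) hd0.ne']
  apply Real.log_le_log (by positivity)
  rw [div_le_iff₀ hd0]
  have h4 : R + 1 ≤ (R / d + 1) * d := by
    have := Nat.lt_div_mul_add hd (a := R)
    nlinarith
  exact_mod_cast h4

theorem JP_nonneg (a q N R d : ℕ) : 0 ≤ JP a q N R d :=
  sum_nonneg fun _ hm => (g_pos (s := apSieve a q N R) (mem_filter.1 hm).1).le

theorem JP_le (a q N R d : ℕ) (hd : 1 ≤ d) : JP a q N R d ≤ JJ (apSieve a q N R) R := by
  unfold JP JJ
  apply sum_le_sum_of_subset_of_nonneg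
  · intro m hm
    rw [mem_filter] at hm ⊢
    exact ⟨hm.1, (Nat.le_mul_of_pos_right m hd).trans hm.2⟩
  · intro m hm _
    exact (g_pos (s := apSieve a q N R) (mem_filter.1 hm).1).le

/-- the sum of the `g k` over the multiples of `d` -/
noncomputable def GG (a q N R d : ℕ) : ℝ :=
  ∑ k ∈ (Nat.divisors (apSieve a q N R).prodPrimes).filter (fun k => d ∣ k ∧ k ≤ R),
    (apSieve a q N R).selbergTerms k

theorem GG_le {a q N R d : ℕ} (hd : d ∈ (PP q R).divisors) :
    GG a q N R d ≤ (apSieve a q N R).selbergTerms d * JP a q N R d := by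
  classical
  set s := apSieve a q N R with hs
  have hP : s.prodPrimes = PP q R := rfl
  have hpd : d ∈ Nat.divisors s.prodPrimes := hd
  unfold GG JP
  rw [Finset.mul_sum]
  have h1 : ∑ k ∈ (Nat.divisors s.prodPrimes).filter (fun k => d ∣ k ∧ k ≤ R), s.selbergTerms k
      = ∑ m ∈ ((Nat.divisors s.prodPrimes).filter (fun k => d ∣ k ∧ k ≤ R)).image (fun k => k / d),
        s.selbergTerms d * s.selbergTerms m := by
    rw [Finset.sum_image]
    · apply Finset.sum_congr rfl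
      intro k hk
      rw [mem_filter, Nat.mem_divisors] at hk
      have h2 : k = d * (k / d) := (Nat.mul_div_cancel' hk.2.1).symm
      have h3 : Nat.Coprime d (k / d) := by
        apply Nat.coprime_of_squarefree_mul
        rw [← h2]; exact s.prodPrimes_squarefree.squarefree_of_dvd hk.1.1
      conv_lhs => rw [h2]
      exact selbergTerms_isMultiplicative.map_mul_of_coprime h3
    · intro a ha b hb hab
      simp only [coe_filter, Nat.mem_divisors, Set.mem_ofPred_eq] at ha hb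
      simp only at hab
      rw [← Nat.mul_div_cancel' ha.2.1, ← Nat.mul_div_cancel' hb.2.1, hab]
  rw [h1]
  apply Finset.sum_le_sum_of_subset_of_nonneg
  · intro m hm
    rw [mem_image] at hm
    obtain ⟨k, hk, rfl⟩ := hm
    rw [mem_filter, Nat.mem_divisors] at hk
    rw [mem_filter, Nat.mem_divisors]
    refine ⟨⟨(Nat.div_dvd_of_dvd hk.2.1).trans hk.1.1, P_ne s⟩, ?_⟩
    rw [Nat.div_mul_cancel hk.2.1]
    exact hk.2.2
  · intro m hm _
    exact mul_nonneg (g_pos hpd).le (g_pos (mem_filter.1 hm).1).le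

theorem g_prime {a q N R p : ℕ} (hp : p.Prime) :
    (apSieve a q N R).selbergTerms p = 1 / ((p : ℝ) - 1) := by
  have hp2 : (2 : ℝ) ≤ p := by exact_mod_cast hp.two_le
  rw [BoundingSieve.selbergTerms_apply]
  change (p : ℝ)⁻¹ * ∏ l ∈ p.primeFactors, (1 - (l : ℝ)⁻¹)⁻¹ = _
  rw [hp.primeFactors, prod_singleton]
  have h1 : (p : ℝ) ≠ 0 := by linarith
  have h2 : (p : ℝ) - 1 ≠ 0 := by linarith
  have h3 : 1 - (p : ℝ)⁻¹ ≠ 0 := by
    rw [sub_ne_zero]
    intro h
    have := inv_lt_one_of_one_lt₀ (show (1 : ℝ) < p by linarith)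
    linarith
  field_simp

theorem sum_biUnion_le_aux {f : ℕ → ℝ} {S : Finset ℕ} {t : ℕ → Finset ℕ}
    (hf : ∀ p ∈ S, ∀ m ∈ t p, 0 ≤ f m) :
    ∑ m ∈ S.biUnion t, f m ≤ ∑ p ∈ S, ∑ m ∈ t p, f m := by
  classical
  induction S using Finset.induction_on with
  | empty => simp
  | insert a S ha ih =>
    rw [biUnion_insert, sum_insert ha]
    have h1 := ih fun p hp => hf p (mem_insert_of_mem hp)
    have h2 : ∑ m ∈ t a ∪ S.biUnion t, f m ≤ ∑ m ∈ t a, f m + ∑ m ∈ S.biUnion t, f m := by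
      rw [← sum_union_inter]
      have : 0 ≤ ∑ m ∈ t a ∩ S.biUnion t, f m :=
        sum_nonneg fun m hm => hf a (mem_insert_self _ _) m (mem_inter.1 hm).1
      linarith
    linarith

theorem GG_ge {a q N R d : ℕ} (hd : d ∈ (PP q R).divisors) :
    (apSieve a q N R).selbergTerms d * (JP a q N R d -
      (∑ p ∈ d.primeFactors, 1 / ((p : ℝ) - 1)) * JJ (apSieve a q N R) R) ≤ GG a q N R d := by
  classical
  set s := apSieve a q N R with hs
  have hP : s.prodPrimes = PP q R := rfl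
  have hpd : d ∈ Nat.divisors s.prodPrimes := hd
  have hdP : d ∣ PP q R := Nat.dvd_of_mem_divisors hd
  have hd0 : 0 < d := Nat.pos_of_mem_divisors hd
  have hP0 : PP q R ≠ 0 := (PP_squarefree q R).ne_zero
  -- the coprime part
  obtain ⟨T, hT⟩ : ∃ T : Finset ℕ, T = (PP q R).divisors.filter (fun m => m * d ≤ R) := ⟨_, rfl⟩
  have h1 : s.selbergTerms d * ∑ m ∈ T.filter (fun m => Nat.Coprime m d), s.selbergTerms m ≤
      GG a q N R d := by
    rw [mul_sum]
    have h2 : ∑ m ∈ T.filter (fun m => Nat.Coprime m d), s.selbergTerms d * s.selbergTerms m =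
        ∑ k ∈ (T.filter (fun m => Nat.Coprime m d)).image (fun m => m * d), s.selbergTerms k := by
      rw [sum_image]
      · apply sum_congr rfl
        intro m hm
        rw [mem_filter] at hm
        rw [mul_comm]
        exact (selbergTerms_isMultiplicative.map_mul_of_coprime hm.2).symm
      · intro x _ y _ hxy
        exact Nat.eq_of_mul_eq_mul_right hd0 hxy
    rw [h2]
    unfold GG
    apply sum_le_sum_of_subset_of_nonneg
    · intro k hk
      rw [mem_image] at hk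
      obtain ⟨m, hm, rfl⟩ := hk
      rw [mem_filter, hT, mem_filter, Nat.mem_divisors] at hm
      rw [mem_filter, Nat.mem_divisors]
      exact ⟨⟨hm.2.mul_dvd_of_dvd_of_dvd hm.1.1.1 hdP, hP0⟩, dvd_mul_left d m, hm.1.2⟩
    · intro k hk _
      exact (g_pos (mem_filter.1 hk).1).le
  have h2 : JP a q N R d - (∑ p ∈ d.primeFactors, 1 / ((p : ℝ) - 1)) * JJ s R ≤
      ∑ m ∈ T.filter (fun m => Nat.Coprime m d), s.selbergTerms m := by
    have h3 : JP a q N R d = ∑ m ∈ T.filter (fun m => Nat.Coprime m d), s.selbergTerms m +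
        ∑ m ∈ T.filter (fun m => ¬ Nat.Coprime m d), s.selbergTerms m := by
      rw [sum_filter_add_sum_filter_not, hT]
      rfl
    have h4 : ∑ m ∈ T.filter (fun m => ¬ Nat.Coprime m d), s.selbergTerms m ≤
        ∑ p ∈ d.primeFactors, GG a q N R p := by
      have h5 : T.filter (fun m => ¬ Nat.Coprime m d) ⊆ d.primeFactors.biUnion (fun p =>
          (Nat.divisors s.prodPrimes).filter (fun k => p ∣ k ∧ k ≤ R)) := by
        intro m hm
        rw [mem_filter, hT, mem_filter] at hm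
        obtain ⟨p, hp, hpm, hpd'⟩ := Nat.Prime.not_coprime_iff_dvd.1 hm.2
        rw [mem_biUnion]
        refine ⟨p, Nat.mem_primeFactors.2 ⟨hp, hpd', hd0.ne'⟩, ?_⟩
        rw [mem_filter]
        exact ⟨hm.1.1, hpm, (Nat.le_mul_of_pos_right m hd0).trans hm.1.2⟩
      refine (sum_le_sum_of_subset_of_nonneg h5 ?_).trans ?_
      · intro m hm _
        rw [mem_biUnion] at hm
        obtain ⟨p, -, hm⟩ := hm
        exact (g_pos (mem_filter.1 hm).1).le
      · exact sum_biUnion_le_aux fun p _ m hm => (g_pos (mem_filter.1 hm).1).le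
    have h6 : ∑ p ∈ d.primeFactors, GG a q N R p ≤
        (∑ p ∈ d.primeFactors, 1 / ((p : ℝ) - 1)) * JJ s R := by
      rw [sum_mul]
      apply sum_le_sum
      intro p hp
      rw [Nat.mem_primeFactors] at hp
      have h7 : p ∈ (PP q R).divisors := Nat.mem_divisors.2 ⟨hp.2.1.trans hdP, hP0⟩
      have h8 := GG_le (a := a) (q := q) (N := N) (R := R) h7
      rw [g_prime hp.1] at h8
      refine h8.trans ?_
      have hp2 : (2 : ℝ) ≤ p := by exact_mod_cast hp.1.two_le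
      have h9 : 0 ≤ 1 / ((p : ℝ) - 1) := by
        apply div_nonneg zero_le_one
        linarith
      exact mul_le_mul_of_nonneg_left (JP_le a q N R p hp.1.one_lt.le) h9
    linarith
  exact (mul_le_mul_of_nonneg_left h2 (g_pos hpd).le).trans h1

theorem one_sub_sum_le {S : Finset ℕ} {x : ℕ → ℝ} (h0 : ∀ p ∈ S, 0 ≤ x p)
    (h1 : ∀ p ∈ S, x p ≤ 1) : 1 - ∑ p ∈ S, x p ≤ ∏ p ∈ S, (1 - x p) ∧
      0 ≤ ∏ p ∈ S, (1 - x p) ∧ ∏ p ∈ S, (1 - x p) ≤ 1 := by
  classical
  induction S using Finset.induction_on with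
  | empty => simp
  | insert a S ha ih =>
    obtain ⟨i1, i2, i3⟩ := ih (fun p hp => h0 p (mem_insert_of_mem hp))
      (fun p hp => h1 p (mem_insert_of_mem hp))
    have ha0 := h0 a (mem_insert_self _ _)
    have ha1 := h1 a (mem_insert_self _ _)
    have hS : 0 ≤ ∑ p ∈ S, x p := sum_nonneg fun p hp => h0 p (mem_insert_of_mem hp)
    rw [sum_insert ha, prod_insert ha]
    refine ⟨?_, mul_nonneg (by linarith) i2, mul_le_one₀ (by linarith) i2 i3⟩
    nlinarith

/-- Selberg's weights are close to the smooth ones -/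
theorem ww_near {a q N R d : ℕ} (hR : 1 ≤ R) (hd : d ∈ (PP q R).divisors) {A s E : ℝ}
    (hs : ∑ p ∈ d.primeFactors, 1 / ((p : ℝ) - 1) ≤ s) (hs2 : s ≤ 1 / 2)
    (h1 : A - E ≤ JP a q N R d / JJ (apSieve a q N R) R)
    (h2 : JP a q N R d / JJ (apSieve a q N R) R ≤ A + E) :
    |ww (apSieve a q N R) R d - (μ d : ℝ) * A| ≤ E + 2 * s := by
  classical
  set t := apSieve a q N R with ht
  have hJ := JJ_pos (s := t) R hR
  have hd0 : 0 < d := Nat.pos_of_mem_divisors hd
  have hdr : (0 : ℝ) < d := by exact_mod_cast hd0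
  have hdP : d ∣ PP q R := Nat.dvd_of_mem_divisors hd
  have hsq : Squarefree d := (PP_squarefree q R).squarefree_of_dvd hdP
  have hmu : |(μ d : ℝ)| = 1 := by
    have := abs_moebius_eq_one_of_squarefree hsq
    exact_mod_cast this
  have hww : ww t R d = (μ d : ℝ) * ((d : ℝ) * GG a q N R d / JJ t R) := by
    unfold ww GG
    change (μ d : ℝ) / ((d : ℝ)⁻¹ * JJ t R) * _ = _
    have h2 := hJ.ne'
    field_simp
    rfl
  rw [hww, ← mul_sub, abs_mul, hmu, one_mul]
  -- the factor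
  obtain ⟨D, hD⟩ : ∃ D : ℝ, D = (d : ℝ) * t.selbergTerms d := ⟨_, rfl⟩
  have hprod : D = (∏ p ∈ d.primeFactors, (1 - (p : ℝ)⁻¹))⁻¹ := by
    rw [hD, BoundingSieve.selbergTerms_apply]
    change (d : ℝ) * ((d : ℝ)⁻¹ * ∏ l ∈ d.primeFactors, (1 - (l : ℝ)⁻¹)⁻¹) = _
    rw [← mul_assoc, mul_inv_cancel₀ hdr.ne', one_mul, prod_inv_distrib]
  have hp0 : ∀ p ∈ d.primeFactors, (0 : ℝ) ≤ (p : ℝ)⁻¹ := fun p _ => by positivity
  have hp1 : ∀ p ∈ d.primeFactors, (p : ℝ)⁻¹ ≤ 1 := by
    intro p hp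
    have : (1 : ℝ) ≤ p := by exact_mod_cast (Nat.prime_of_mem_primeFactors hp).one_lt.le
    exact inv_le_one_of_one_le₀ this
  obtain ⟨i1, i2, i3⟩ := one_sub_sum_le hp0 hp1
  have hsum : ∑ p ∈ d.primeFactors, (p : ℝ)⁻¹ ≤ s := by
    refine le_trans ?_ hs
    apply sum_le_sum
    intro p hp
    have : (2 : ℝ) ≤ p := by exact_mod_cast (Nat.prime_of_mem_primeFactors hp).two_le
    rw [← one_div]
    apply one_div_le_one_div_of_le (by linarith)
    linarith
  have hs0 : 0 ≤ s := le_trans (sum_nonneg hp0) hsum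
  have hpos : 0 < ∏ p ∈ d.primeFactors, (1 - (p : ℝ)⁻¹) := by linarith
  have hD1 : 1 ≤ D := by
    rw [hprod]
    exact (one_le_inv₀ hpos).2 i3
  have hD2 : D ≤ 1 + 2 * s := by
    rw [hprod]
    refine inv_le_of_inv_le₀ (by linarith) ?_
    refine le_trans ?_ i1
    refine le_trans ?_ (sub_le_sub_left hsum 1)
    rw [inv_le_iff_one_le_mul₀ (by linarith)]
    nlinarith
  obtain ⟨x, hx⟩ : ∃ x : ℝ, x = JP a q N R d / JJ t R := ⟨_, rfl⟩
  have hx0 : 0 ≤ x := by
    rw [hx]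
    exact div_nonneg (JP_nonneg a q N R d) hJ.le
  have hx1 : x ≤ 1 := by
    rw [hx, div_le_one hJ]
    exact JP_le a q N R d hd0
  rw [← hx] at h1 h2
  have hup : (d : ℝ) * GG a q N R d / JJ t R ≤ D * x := by
    rw [div_le_iff₀ hJ]
    have h3 := mul_le_mul_of_nonneg_left (GG_le (a := a) (q := q) (N := N) (R := R) hd) hdr.le
    refine h3.trans (le_of_eq ?_)
    rw [hx, hD]
    have := hJ.ne'
    field_simp
  have hlo : D * (x - s) ≤ (d : ℝ) * GG a q N R d / JJ t R := by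
    rw [le_div_iff₀ hJ]
    have h3 := mul_le_mul_of_nonneg_left (GG_ge (a := a) (q := q) (N := N) (R := R) hd) hdr.le
    refine le_trans ?_ h3
    have h4 : D * (x - s) * JJ t R = D * (JP a q N R d - s * JJ t R) := by
      rw [hx]
      have := hJ.ne'
      field_simp
    rw [h4, ← mul_assoc, ← hD]
    apply mul_le_mul_of_nonneg_left _ (by linarith)
    have h5 : (∑ p ∈ d.primeFactors, 1 / ((p : ℝ) - 1)) * JJ t R ≤ s * JJ t R :=
      mul_le_mul_of_nonneg_right hs hJ.le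
    linarith
  have hG0 : 0 ≤ (d : ℝ) * GG a q N R d / JJ t R := by
    apply div_nonneg _ hJ.le
    apply mul_nonneg hdr.le
    exact sum_nonneg fun _ hm => (g_pos (s := t) (mem_filter.1 hm).1).le
  rw [abs_le]
  constructor
  · rcases le_or_gt 0 (x - s) with h | h
    · have h5 : 1 * (x - s) ≤ D * (x - s) := mul_le_mul_of_nonneg_right hD1 h
      linarith
    · linarith
  · have h5 : D * x ≤ (1 + 2 * s) * x := mul_le_mul_of_nonneg_right hD2 hx0
    have h6 : 2 * s * x ≤ 2 * s * 1 := mul_le_mul_of_nonneg_left hx1 (by linarith)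
    linarith

end Pool.Agent.E8helper28.BT
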