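import Pool.Agent.E8helper28.BT.Low2

set_option autoImplicit false

/-!
# Near-extremal progressions for the Brun-Titchmarsh inequality: the truncated divisor sum
-/

namespace Pool.Agent.E8helper28.BT

open Finset BoundingSieve ArithmeticFunction
open scoped ArithmeticFunction.Moebius
open Pool.Agent.Erdos456.SieveAux (JJ ww JJ_pos ww_one ww_bound ww_zero mainSum_eq errSum_le P_ne
  g_pos)
open Pool.Agent.Helper923.PPS

/-- the truncated divisor sum of Selberg -/
noncomputable def WW (N n : ℕ) : ℝ :=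
  ∑ d ∈ n.divisors.filter (fun d => d ^ 2 ≤ N), (μ d : ℝ) * (1 - 2 * Real.log d / Real.log N)

theorem small_terms2 (a q N R : ℕ) (hq : 1 ≤ q) :
    ((range N).filter (fun t => (a + t * q).Prime ∧ a + t * q ≤ R)).card ≤ R + 1 := by
  classical
  have h : (range N).filter (fun t => (a + t * q).Prime ∧ a + t * q ≤ R) ⊆ range (R + 1) := by
    intro t ht
    rw [mem_filter] at ht
    rw [mem_range]
    have : t ≤ t * q := Nat.le_mul_of_pos_right t hq
    omega
  simpa using card_le_card h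

/-- the basic inequality -/
theorem basic2 (a q N R : ℕ) (hq : 1 ≤ q) (hR : 1 ≤ R) (w : ℝ) (hw : 0 ≤ w) (S : Finset ℕ)
    (hS : ∀ t ∈ S, t < N ∧ ¬ (a + t * q).Prime)
    (hc : ∀ t ∈ S, w ≤ |W (apSieve a q N R) R (a + t * q)|) :
    (((range N).filter (fun t => (a + t * q).Prime)).card : ℝ) + w ^ 2 * (S.card : ℝ) ≤
      N / JJ (apSieve a q N R) R + ((R : ℝ) * (1 + Real.log R / Real.log 2)) ^ 2 + (R + 1) := by
  classical
  have h1 := ap_sq a q N R hq hR
  obtain ⟨A, hA⟩ : ∃ A : Finset ℕ, A = (range N).filter (fun t => (a + t * q).Prime ∧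
    R < a + t * q) := ⟨_, rfl⟩
  have hdis : Disjoint A S := by
    rw [disjoint_left]
    intro t h1 h2
    rw [hA, mem_filter] at h1
    exact (hS t h2).2 h1.2.1
  have hsub : A ∪ S ⊆ range N := by
    apply union_subset
    · rw [hA]
      exact filter_subset _ _
    · intro t ht
      exact mem_range.2 (hS t ht).1
  have h2 : (A.card : ℝ) + w ^ 2 * (S.card : ℝ) ≤
      ∑ t ∈ range N, W (apSieve a q N R) R (a + t * q) ^ 2 := by
    calc (A.card : ℝ) + w ^ 2 * (S.card : ℝ)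
        = ∑ _t ∈ A, (1 : ℝ) + ∑ _t ∈ S, w ^ 2 := by
          rw [sum_const, sum_const, nsmul_eq_mul, nsmul_eq_mul, mul_one, mul_comm (w ^ 2)]
      _ ≤ ∑ t ∈ A, W (apSieve a q N R) R (a + t * q) ^ 2 +
            ∑ t ∈ S, W (apSieve a q N R) R (a + t * q) ^ 2 := by
          apply add_le_add
          · apply sum_le_sum
            intro t ht
            rw [hA, mem_filter] at ht
            rw [W_one hR, one_pow]
            intro p hp hpR _ hpd
            have : p = a + t * q := (Nat.prime_dvd_prime_iff_eq hp ht.2.1).1 hpd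
            omega
          · apply sum_le_sum
            intro t ht
            rw [← sq_abs (W (apSieve a q N R) R (a + t * q))]
            exact pow_le_pow_left₀ hw (hc t ht) 2
      _ = ∑ t ∈ A ∪ S, W (apSieve a q N R) R (a + t * q) ^ 2 := (sum_union hdis).symm
      _ ≤ _ := sum_le_sum_of_subset_of_nonneg hsub fun _ _ _ => sq_nonneg _
  have h3 : (((range N).filter (fun t => (a + t * q).Prime)).card : ℝ) ≤ A.card + (R + 1) := by
    have h4 := small_terms2 a q N R hq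
    have h5 : (range N).filter (fun t => (a + t * q).Prime) ⊆
        A ∪ (range N).filter (fun t => (a + t * q).Prime ∧ a + t * q ≤ R) := by
      intro t ht
      rw [mem_filter] at ht
      rw [mem_union, hA, mem_filter, mem_filter]
      rcases lt_or_ge R (a + t * q) with h | h
      · exact Or.inl ⟨ht.1, ht.2, h⟩
      · exact Or.inr ⟨ht.1, ht.2, h⟩
    have h6 := (card_le_card h5).trans (card_union_le _ _)
    have h7 : ((range N).filter (fun t => (a + t * q).Prime)).card ≤ A.card + (R + 1) := by omega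
    exact_mod_cast h7
  linarith

theorem W_near {a q N R k n : ℕ} {κ : ℝ} (hn : n ≠ 0) (hcop : Nat.Coprime n q)
    (hRN : R ^ 2 ≤ N) (hcard : (n.primeFactors.filter (fun p => p ^ 2 ≤ N)).card ≤ k) (h0 : 0 ≤ κ)
    (h1 : ∀ d : ℕ, d ∣ n → d ∈ (PP q R).divisors → d ≤ R →
      |ww (apSieve a q N R) R d - (μ d : ℝ) * (1 - 2 * Real.log d / Real.log N)| ≤ κ)
    (h2 : ∀ d : ℕ, d ∣ n → R < d → d ^ 2 ≤ N → |1 - 2 * Real.log d / Real.log N| ≤ κ) :
    |W (apSieve a q N R) R n - WW N n| ≤ 2 ^ k * κ := by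
  classical
  obtain ⟨D, hD⟩ : ∃ D : Finset ℕ, D = n.divisors.filter (fun d => Squarefree d ∧ d ^ 2 ≤ N) :=
    ⟨_, rfl⟩
  have hWW : WW N n = ∑ d ∈ D, (μ d : ℝ) * (1 - 2 * Real.log d / Real.log N) := by
    unfold WW
    symm
    rw [hD]
    apply sum_subset
    · intro d hd
      rw [mem_filter] at hd ⊢
      exact ⟨hd.1, hd.2.2⟩
    · intro d hd hd2
      rw [mem_filter] at hd hd2
      have : ¬ Squarefree d := fun h => hd2 ⟨hd.1, h, hd.2⟩
      rw [moebius_eq_zero_of_not_squarefree this]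
      simp
  have hgcd0 : Nat.gcd (PP q R) n ≠ 0 := fun h => hn (Nat.eq_zero_of_gcd_eq_zero_right h)
  have hW : W (apSieve a q N R) R n =
      ∑ d ∈ D, if d ≤ R then ww (apSieve a q N R) R d else 0 := by
    rw [← sum_filter]
    unfold W
    change ∑ d ∈ (Nat.gcd (PP q R) n).divisors, _ = _
    have h3 : D.filter (fun d => d ≤ R) =
        (Nat.gcd (PP q R) n).divisors.filter (fun d => d ≤ R) := by
      ext d
      rw [hD, mem_filter, mem_filter, mem_filter, Nat.mem_divisors, Nat.mem_divisors,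
        Nat.dvd_gcd_iff]
      constructor
      · rintro ⟨⟨⟨i1, -⟩, i2, i3⟩, i4⟩
        exact ⟨⟨⟨dvd_PP_of_squarefree i2 i4 (hcop.coprime_dvd_left i1), i1⟩, hgcd0⟩, i4⟩
      · rintro ⟨⟨⟨i1, i2⟩, -⟩, i4⟩
        exact ⟨⟨⟨i2, hn⟩, (PP_squarefree q R).squarefree_of_dvd i1,
          (Nat.pow_le_pow_left i4 2).trans hRN⟩, i4⟩
    rw [h3]
    symm
    apply sum_filter_of_ne
    intro d hd hne
    by_contra h
    exact hne (ww_zero R (Nat.pos_of_mem_divisors hd) (by omega))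
  rw [hW, hWW, ← sum_sub_distrib]
  have hterm : ∀ d ∈ D, |(if d ≤ R then ww (apSieve a q N R) R d else 0) -
      (μ d : ℝ) * (1 - 2 * Real.log d / Real.log N)| ≤ κ := by
    intro d hd
    rw [hD, mem_filter, Nat.mem_divisors] at hd
    obtain ⟨⟨i1, -⟩, i2, i3⟩ := hd
    split_ifs with h
    · apply h1 d i1 _ h
      rw [Nat.mem_divisors]
      exact ⟨dvd_PP_of_squarefree i2 h (hcop.coprime_dvd_left i1), (PP_squarefree q R).ne_zero⟩
    · have hmu : |(μ d : ℝ)| = 1 := by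
        have := abs_moebius_eq_one_of_squarefree i2
        exact_mod_cast this
      rw [zero_sub, abs_neg, abs_mul, hmu, one_mul]
      exact h2 d i1 (by omega) i3
  refine (abs_sum_le_sum_abs _ _).trans ((sum_le_sum hterm).trans ?_)
  rw [sum_const, nsmul_eq_mul]
  apply mul_le_mul_of_nonneg_right _ h0
  have hinj : D.card ≤ (n.primeFactors.filter (fun p => p ^ 2 ≤ N)).powerset.card := by
    apply card_le_card_of_injOn (fun d => d.primeFactors)
    · intro d hd
      rw [mem_coe, hD, mem_filter, Nat.mem_divisors] at hd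
      rw [mem_coe, mem_powerset]
      intro p hp
      rw [mem_filter, Nat.mem_primeFactors]
      rw [Nat.mem_primeFactors] at hp
      refine ⟨⟨hp.1, hp.2.1.trans hd.1.1, hn⟩, ?_⟩
      exact (Nat.pow_le_pow_left (Nat.le_of_dvd (Nat.pos_of_ne_zero hp.2.2) hp.2.1) 2).trans hd.2.2
    · intro x hx z hz hxz
      rw [mem_coe, hD, mem_filter] at hx hz
      simp only at hxz
      rw [← Nat.prod_primeFactors_of_squarefree hx.2.1,
        ← Nat.prod_primeFactors_of_squarefree hz.2.1, hxz]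
  rw [card_powerset] at hinj
  have h3 : D.card ≤ 2 ^ k := hinj.trans (Nat.pow_le_pow_right (by norm_num) hcard)
  exact_mod_cast h3

theorem aux_low {c E l : ℝ} (hc : 0 ≤ c) (hE : 0 ≤ E) (hcE : c ≤ E / 2048) (hl : 0 ≤ l) :
    ((1 - 2 * l) - E) * (1 / 2 + c) ≤ 1 / 2 - c - l := by
  have h1 := mul_nonneg hc hl
  have h2 := mul_nonneg hc hE
  linarith

theorem aux_upp {c E l τ : ℝ} (hc : 0 ≤ c) (hE : 0 ≤ E) (hcE : c ≤ E / 2048) (hE1 : E ≤ 1 / 8)
    (hτ : τ ≤ E / 32) (hl : 0 ≤ l) :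
    1 / 2 + c - l + 2 * τ ≤ ((1 - 2 * l) + E) * (1 / 2 - c) := by
  have h1 := mul_nonneg hc hl
  have h2 : c * E ≤ c * 1 := mul_le_mul_of_nonneg_left (by linarith) hc
  linarith

theorem aux1 {c : ℝ} (h0 : 0 ≤ c) (h1 : c ≤ 1 / 4096) : 1 ≤ (2 + 8 * c) * (1 / 2 - c) := by
  have := mul_le_mul_of_nonneg_left h1 h0
  linarith

theorem aux2 {c : ℝ} (h0 : 0 ≤ c) (h1 : c ≤ 1 / 4096) : 1 ≤ (2 - 2 * c) * (1 / 2 + c) := by
  have := mul_le_mul_of_nonneg_left h1 h0
  linarith

/-- Selberg's weights at the divisors of rough numbers, for a near-extremal progression -/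
theorem weights {a q N R T k d : ℕ} {η τ c E C y L K : ℝ} (hη : 0 < η)
    (hE0 : 0 < E) (hE1 : E ≤ 1 / 8) (hτ0 : 0 < τ) (hτE : τ ≤ E / 32) (hτη : τ ≤ η / 128)
    (hc0 : 0 < c) (hcE : c ≤ E / 2048) (hcτ : c ≤ η * τ ^ 2 / 64) (hC0 : 0 ≤ C)
    (hC : ∀ V d : ℕ, 1 ≤ V → V ≤ d → 2 ≤ d → (Real.log d - Real.log V - C) / Real.log d ≤
      ∑ l ∈ (Ioc V d).filter Nat.Prime, (l : ℝ)⁻¹)
    (hy0 : 0 < y) (hL : L = Real.log y) (hL0 : 0 < L) (h4L : 4 + 2 * C ≤ τ * L) (hq : 1 ≤ q)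
    (hR : 1 ≤ R) (hK : K = (q : ℝ) / Nat.totient q) (hK0 : 0 < K)
    (hlR : Real.log R ≤ L / 2) (hlR1 : (1 / 2 - c) * L ≤ Real.log ((R : ℝ) + 1))
    (hT3 : 1 ≤ T) (hT1 : (T : ℝ) ≤ y ^ τ) (hlogT1 : Real.log T ≤ τ * L)
    (hlogT2 : τ * L - Real.log 2 ≤ Real.log T) (hhh : 2 ≤ y ^ (η - τ))
    (hpp : 2 * k / E + 3 ≤ y ^ η)
    (hKJL : K * JJ (apSieve a q N R) R ≤ (1 / 2 + c) * L)
    (hKJ : Real.log ((R : ℝ) + 1) ≤ K * JJ (apSieve a q N R) R)
    (hd : d ∈ (PP q R).divisors) (hdR : d ≤ R) (hdη : y ^ η < d) (hdk : d.primeFactors.card ≤ k)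
    (hdp : ∀ p ∈ d.primeFactors, y ^ η < p) :
    |ww (apSieve a q N R) R d - (μ d : ℝ) * (1 - 2 * Real.log d / L)| ≤ 4 * E := by
  classical
  obtain ⟨J, hJ⟩ : ∃ J : ℝ, J = JJ (apSieve a q N R) R := ⟨_, rfl⟩
  have hJ0 : 0 < J := by rw [hJ]; exact JJ_pos R hR
  rw [← hJ] at hKJL hKJ
  have hTr : (1 : ℝ) ≤ T := by exact_mod_cast hT3
  have hl2' : Real.log 2 < 0.6931471808 := Real.log_two_lt_d9
  have hd1 : 1 ≤ d := Nat.pos_of_mem_divisors hd
  have hkE : 0 ≤ 2 * k / E := by positivity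
  have hd3 : (3 : ℝ) < d := by linarith
  have hd3' : 3 < d := by exact_mod_cast hd3
  have hd0 : (0 : ℝ) < d := by linarith
  have hlogd1 : η * L ≤ Real.log d := by
    have h1 : Real.log (y ^ η) ≤ Real.log d := Real.log_le_log (by positivity) hdη.le
    rwa [Real.log_rpow hy0, ← hL] at h1
  have hlogd2 : Real.log d ≤ L / 2 := by
    have h1 : Real.log d ≤ Real.log R := Real.log_le_log hd0 (by exact_mod_cast hdR)
    exact h1.trans hlR
  have hηL : 128 * (4 + 2 * C) ≤ η * L := by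
    have : τ * L ≤ η / 128 * L := mul_le_mul_of_nonneg_right hτη hL0.le
    linarith
  have hlogd0 : 0 < Real.log d := by linarith
  -- the number `V`
  obtain ⟨V, hV⟩ : ∃ V : ℕ, V = d / T := ⟨_, rfl⟩
  have hdT : 2 ≤ (d : ℝ) / T := by
    rw [le_div_iff₀ (by linarith)]
    calc 2 * (T : ℝ) ≤ y ^ (η - τ) * y ^ τ := by
          apply mul_le_mul hhh hT1 (by linarith) (by positivity)
      _ = y ^ η := by
          rw [← Real.rpow_add hy0]
          congr 1
          ring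
      _ ≤ d := hdη.le
  have hV2 : 2 ≤ V := by
    rw [hV, Nat.le_div_iff_mul_le (by omega)]
    rw [le_div_iff₀ (by linarith)] at hdT
    exact_mod_cast hdT
  have hVd : V ≤ d := by
    rw [hV]
    exact Nat.div_le_self _ _
  have hVr : (2 : ℝ) ≤ V := by exact_mod_cast hV2
  have hV3 : (d : ℝ) / T ≤ 2 * V := by
    have h1 : d < (V + 1) * T := by
      rw [hV]
      exact (Nat.div_lt_iff_lt_mul hT3).1 (Nat.lt_succ_self _)
    rw [div_le_iff₀ (by linarith)]
    have h2 : (d : ℝ) < (V + 1) * T := by exact_mod_cast h1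
    have h3 : ((V : ℝ) + 1) * T ≤ 2 * V * T := mul_le_mul_of_nonneg_right (by linarith) (by linarith)
    exact h2.le.trans h3
  have hV4 : (V : ℝ) ≤ d / T := by
    rw [hV]
    exact Nat.cast_div_le
  have hlogV1 : Real.log d - τ * L - Real.log 2 ≤ Real.log V := by
    have h1 : Real.log ((d : ℝ) / T) ≤ Real.log (2 * V) := Real.log_le_log (by linarith) hV3
    rw [Real.log_div hd0.ne' (by linarith), Real.log_mul (by norm_num) (by linarith)] at h1
    linarith
  have hlogV2 : Real.log V ≤ Real.log d - τ * L + Real.log 2 := by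
    have h1 : Real.log V ≤ Real.log ((d : ℝ) / T) := Real.log_le_log (by linarith) hV4
    rw [Real.log_div hd0.ne' (by linarith)] at h1
    linarith
  have hσ : τ ≤ ∑ l ∈ (Ioc V d).filter Nat.Prime, (l : ℝ)⁻¹ := by
    refine le_trans ?_ (hC V d (by omega) hVd (by omega))
    rw [le_div_iff₀ hlogd0]
    have h1 : τ * Real.log d ≤ τ * (L / 2) := mul_le_mul_of_nonneg_left hlogd2 hτ0.le
    linarith
  have hM : Real.log ((R : ℝ) * d) ≤ 2 / η * Real.log V := by
    have hR0 : (R : ℝ) ≠ 0 := by positivity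
    rw [Real.log_mul hR0 hd0.ne']
    have h1 : η * L / 2 ≤ Real.log V := by
      have h2 : τ * L ≤ η / 128 * L := mul_le_mul_of_nonneg_right hτη hL0.le
      linarith
    have h2 : 2 / η * (η * L / 2) ≤ 2 / η * Real.log V := by gcongr
    have h3 : 2 / η * (η * L / 2) = L := by field_simp
    linarith
  have hdiff := diff_ge2 (a := a) (N := N) hq hV2 (hVd.trans hdR) hd1 hτ0 hσ hM
  rw [← hJ, ← hK] at hdiff
  have h4 : K * J - Real.log ((R : ℝ) + 1) ≤ 2 * c * L := by linarith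
  have h5 : 2 / η / τ * (K * J - Real.log ((R : ℝ) + 1)) ≤ τ / 16 * L := by
    have h6 : 2 / η / τ * (K * J - Real.log ((R : ℝ) + 1)) ≤ 2 / η / τ * (2 * c * L) := by
      gcongr
    have h7 : 2 / η / τ * (2 * c * L) ≤ 2 / η / τ * (2 * (η * τ ^ 2 / 64) * L) := by
      gcongr
    have h8 : 2 / η / τ * (2 * (η * τ ^ 2 / 64) * L) = τ / 16 * L := by
      field_simp
      norm_num
    exact h6.trans (h7.trans h8.le)
  have h9 : Real.log d - 2 * τ * L ≤ K * (J - JP a q N R d) := by linarith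
  have h10 := JP_ge a q N R d hq hd1
  rw [← hK] at h10
  obtain ⟨ℓ, hℓ⟩ : ∃ ℓ : ℝ, ℓ = Real.log d / L := ⟨_, rfl⟩
  have hℓL : Real.log d = ℓ * L := by rw [hℓ]; field_simp
  have hℓ0 : 0 ≤ ℓ := by rw [hℓ]; positivity
  have hℓ1 : ℓ ≤ 1 / 2 := by
    rw [hℓ, div_le_iff₀ hL0]
    linarith
  have hAe : 1 - 2 * Real.log d / L = 1 - 2 * ℓ := by rw [hℓ]; ring
  rw [hAe]
  rw [hℓL] at h9 h10
  have hsum : ∑ p ∈ d.primeFactors, 1 / ((p : ℝ) - 1) ≤ E / 2 := by
    have h1 : ∀ p ∈ d.primeFactors, 1 / ((p : ℝ) - 1) ≤ 1 / (2 * k / E + 2) := by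
      intro p hp
      have h2 := hdp p hp
      apply one_div_le_one_div_of_le (by positivity)
      linarith
    refine (sum_le_sum h1).trans ?_
    rw [sum_const, nsmul_eq_mul]
    have h2 : (d.primeFactors.card : ℝ) ≤ k := by exact_mod_cast hdk
    have h3 : (d.primeFactors.card : ℝ) * (1 / (2 * k / E + 2)) ≤ k * (1 / (2 * k / E + 2)) := by
      gcongr
    refine h3.trans ?_
    rw [mul_one_div, div_le_iff₀ (by positivity)]
    have h4 : E / 2 * (2 * k / E + 2) = k + E := by field_simp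
    rw [h4]
    linarith
  have hlow : (1 - 2 * ℓ) - E ≤ JP a q N R d / JJ (apSieve a q N R) R := by
    rw [← hJ, le_div_iff₀ hJ0]
    rcases le_or_gt ((1 - 2 * ℓ) - E) 0 with h | h
    · exact (mul_nonpos_of_nonpos_of_nonneg h hJ0.le).trans (JP_nonneg a q N R d)
    · have h1 : ((1 - 2 * ℓ) - E) * (K * J) ≤ ((1 - 2 * ℓ) - E) * ((1 / 2 + c) * L) :=
        mul_le_mul_of_nonneg_left hKJL h.le
      have h2 := aux_low hc0.le hE0.le hcE hℓ0
      have h3 := mul_le_mul_of_nonneg_right h2 hL0.le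
      have h4 : K * (((1 - 2 * ℓ) - E) * J) ≤ K * JP a q N R d := by
        calc K * (((1 - 2 * ℓ) - E) * J) = ((1 - 2 * ℓ) - E) * (K * J) := by ring
          _ ≤ ((1 - 2 * ℓ) - E) * ((1 / 2 + c) * L) := h1
          _ = ((1 - 2 * ℓ) - E) * (1 / 2 + c) * L := by ring
          _ ≤ (1 / 2 - c - ℓ) * L := h3
          _ = (1 / 2 - c) * L - ℓ * L := by ring
          _ ≤ Real.log ((R : ℝ) + 1) - ℓ * L := sub_le_sub_right hlR1 _
          _ ≤ _ := h10
      exact le_of_mul_le_mul_left h4 hK0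
  have hupp : JP a q N R d / JJ (apSieve a q N R) R ≤ (1 - 2 * ℓ) + E := by
    rw [← hJ, div_le_iff₀ hJ0]
    have h1 : ((1 - 2 * ℓ) + E) * ((1 / 2 - c) * L) ≤ ((1 - 2 * ℓ) + E) * (K * J) :=
      mul_le_mul_of_nonneg_left (hlR1.trans hKJ) (by linarith)
    have h2 := aux_upp hc0.le hE0.le hcE hE1 hτE hℓ0
    have h3 := mul_le_mul_of_nonneg_right h2 hL0.le
    have h4 : K * JP a q N R d ≤ K * (((1 - 2 * ℓ) + E) * J) := by
      calc K * JP a q N R d = K * J - K * (J - JP a q N R d) := by ring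
        _ ≤ (1 / 2 + c) * L - (ℓ * L - 2 * τ * L) := sub_le_sub hKJL h9
        _ = (1 / 2 + c - ℓ + 2 * τ) * L := by ring
        _ ≤ ((1 - 2 * ℓ) + E) * (1 / 2 - c) * L := h3
        _ = ((1 - 2 * ℓ) + E) * ((1 / 2 - c) * L) := by ring
        _ ≤ ((1 - 2 * ℓ) + E) * (K * J) := h1
        _ = _ := by ring
    exact le_of_mul_le_mul_left h4 hK0
  have hfin := ww_near (a := a) (q := q) (N := N) hR hd hsum (by linarith) hlow hupp
  linarith

/-- the terms of the progression which are not prime, have no prime factor up to `N ^ η`, at most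
`k` prime factors up to `√N`, and for which the truncated divisor sum is not small -/
noncomputable def cls2 (η ε : ℝ) (k a q N : ℕ) : Finset ℕ := by
  classical
  exact (range N).filter (fun t => ¬ (a + t * q).Prime ∧
    (∀ p : ℕ, p.Prime → p ∣ a + t * q → (N : ℝ) ^ η < p) ∧
    ((a + t * q).primeFactors.filter (fun p => p ^ 2 ≤ N)).card ≤ k ∧
    ε < |WW N (a + t * q)|)

theorem near_extremal (η ε : ℝ) (k : ℕ) (hη : 0 < η) (hη2 : η ≤ 1 / 2) (hε : 0 < ε) :
    ∃ δ : ℝ, 0 < δ ∧ ∃ N₀ : ℕ, ∀ a q N : ℕ, 1 ≤ q → Nat.Coprime a q → N₀ ≤ N →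
      (2 - δ) * (((q : ℝ) / Nat.totient q) * N / Real.log N) ≤
        (((range N).filter (fun t => (a + t * q).Prime)).card : ℝ) →
      ((cls2 η ε k a q N).card : ℝ) ≤ ε * (((q : ℝ) / Nat.totient q) * N / Real.log N) := by
  classical
  obtain ⟨ε', hε', hε1, hεε⟩ : ∃ e : ℝ, 0 < e ∧ e ≤ 1 ∧ e ≤ ε :=
    ⟨min ε 1, by positivity, min_le_right _ _, min_le_left _ _⟩
  obtain ⟨E, hE⟩ : ∃ E : ℝ, E = ε' / 2 ^ (k + 3) := ⟨_, rfl⟩
  have hE0 : 0 < E := by rw [hE]; positivity
  have hE2 : 2 ^ k * (4 * E) = ε' / 2 := by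
    rw [hE, pow_add]
    field_simp
    norm_num
  have hE1 : E ≤ 1 / 8 := by
    rw [hE, div_le_iff₀ (by positivity), pow_add]
    have : (1 : ℝ) ≤ 2 ^ k := one_le_pow₀ (by norm_num)
    linarith
  obtain ⟨τ, hτ⟩ : ∃ τ : ℝ, τ = η * E / 16 := ⟨_, rfl⟩
  have hτ0 : 0 < τ := by rw [hτ]; positivity
  have hτE : τ ≤ E / 32 := by
    rw [hτ]
    have : η * E ≤ 1 / 2 * E := mul_le_mul_of_nonneg_right hη2 hE0.le
    linarith
  have hτη : τ ≤ η / 128 := by
    rw [hτ]
    have : η * E ≤ η * (1 / 8) := mul_le_mul_of_nonneg_left hE1 hη.le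
    linarith
  have hτ1 : τ ≤ 1 / 256 := by linarith
  obtain ⟨c, hc⟩ : ∃ c : ℝ, c = η * τ ^ 2 * ε' ^ 3 / 64 := ⟨_, rfl⟩
  have hc0 : 0 < c := by rw [hc]; positivity
  have hε3 : ε' ^ 3 ≤ 1 := pow_le_one₀ hε'.le hε1
  have hτ2 : τ ^ 2 ≤ τ := by nlinarith
  have hcτ : c ≤ η * τ ^ 2 / 64 := by
    rw [hc]
    apply div_le_div_of_nonneg_right _ (by norm_num)
    exact mul_le_of_le_one_right (by positivity) hε3
  have hητ : η * τ ^ 2 ≤ τ := by
    calc η * τ ^ 2 ≤ 1 * τ := mul_le_mul (by linarith) hτ2 (by positivity) zero_le_one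
      _ = τ := one_mul τ
  have hcE : c ≤ E / 2048 := by linarith
  have hc1 : c ≤ 1 / 4096 := by linarith
  have hcε : c ≤ ε' ^ 3 / 64 := by
    rw [hc]
    apply div_le_div_of_nonneg_right _ (by norm_num)
    have : η * τ ^ 2 ≤ 1 := by linarith
    exact mul_le_of_le_one_left (by positivity) this
  obtain ⟨C, hC0, hC⟩ := mid_primes2
  have hev : ∀ᶠ x : ℝ in Filter.atTop, 24 * Real.log x ^ 3 ≤ c * x ^ (2 * c) := by
    have h1 := (isLittleO_log_rpow_rpow_atTop (3 : ℝ) (show 0 < 2 * c by positivity)).bound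
      (show 0 < c / 24 by positivity)
    filter_upwards [h1, Filter.eventually_ge_atTop (1 : ℝ)] with x hx hx1
    have hl : 0 ≤ Real.log x := Real.log_nonneg hx1
    rw [Real.norm_of_nonneg (by positivity), Real.norm_of_nonneg (by positivity)] at hx
    have h2 : Real.log x ^ (3 : ℝ) = Real.log x ^ 3 := by
      rw [← Real.rpow_natCast]; norm_num
    rw [h2] at hx
    linarith
  have hevp : ∀ᶠ x : ℝ in Filter.atTop, 2 * k / E + 3 ≤ x ^ η :=
    (tendsto_rpow_atTop hη).eventually (Filter.eventually_ge_atTop _)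
  have hevt : ∀ᶠ x : ℝ in Filter.atTop, 2 ≤ x ^ τ :=
    (tendsto_rpow_atTop hτ0).eventually (Filter.eventually_ge_atTop _)
  have hevh : ∀ᶠ x : ℝ in Filter.atTop, 2 ≤ x ^ (η - τ) :=
    (tendsto_rpow_atTop (show 0 < η - τ by linarith)).eventually (Filter.eventually_ge_atTop _)
  have hevL : ∀ᶠ x : ℝ in Filter.atTop, (4 + 2 * C) / τ ≤ Real.log x :=
    Real.tendsto_log_atTop.eventually (Filter.eventually_ge_atTop _)
  have hev2 := (tendsto_natCast_atTop_atTop (R := ℝ)).eventually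
    (hev.and (hevp.and (hevt.and (hevh.and hevL))))
  obtain ⟨Y₁, hY₁⟩ := Filter.eventually_atTop.1 hev2
  refine ⟨c, hc0, max Y₁ 3, ?_⟩
  intro a q N hq hcop hN hext
  obtain ⟨h24, hpp, htt, hhh, hLL⟩ := hY₁ N (by omega)
  have hN3 : 3 ≤ N := by omega
  have hq' : (0 : ℝ) < q := by exact_mod_cast hq
  have ht' : (0 : ℝ) < Nat.totient q := by exact_mod_cast Nat.totient_pos.2 hq
  obtain ⟨K, hK⟩ : ∃ K : ℝ, K = (q : ℝ) / Nat.totient q := ⟨_, rfl⟩
  have hK1 : 1 ≤ K := by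
    rw [hK, le_div_iff₀ ht', one_mul]
    exact_mod_cast Nat.totient_le q
  have hK0 : 0 < K := by linarith
  obtain ⟨y, hy⟩ : ∃ y : ℝ, y = (N : ℝ) := ⟨_, rfl⟩
  rw [← hy] at h24 hpp htt hhh hLL hext ⊢
  rw [← hK] at hext ⊢
  have hy3 : (3 : ℝ) ≤ y := by rw [hy]; exact_mod_cast hN3
  have hy0 : 0 < y := by linarith
  have hy1 : 1 ≤ y := by linarith
  obtain ⟨L, hL⟩ : ∃ L : ℝ, L = Real.log y := ⟨_, rfl⟩
  rw [← hL] at h24 hLL hext ⊢
  have h4L : 4 + 2 * C ≤ τ * L := by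
    rw [div_le_iff₀ hτ0] at hLL
    linarith
  have hL0 : 0 < L := by
    by_contra h
    have : τ * L ≤ 0 := mul_nonpos_of_nonneg_of_nonpos hτ0.le (by linarith)
    linarith
  have hL1024 : 1024 ≤ L := by
    have : τ * L ≤ 1 / 256 * L := mul_le_mul_of_nonneg_right hτ1 hL0.le
    linarith
  have hηL : 128 * (4 + 2 * C) ≤ η * L := by
    have : τ * L ≤ η / 128 * L := mul_le_mul_of_nonneg_right hτη hL0.le
    linarith
  -- the sieve level
  obtain ⟨x, hx⟩ : ∃ x : ℝ, x = y ^ (1 / 2 - c) := ⟨_, rfl⟩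
  have hx0 : 0 < x := by rw [hx]; positivity
  have hx1 : 1 ≤ x := by
    rw [hx]; exact Real.one_le_rpow (by linarith) (by linarith)
  have hlogx : Real.log x = (1 / 2 - c) * L := by rw [hx, Real.log_rpow hy0, hL]
  obtain ⟨R, hRd⟩ : ∃ R : ℕ, R = ⌊x⌋₊ := ⟨_, rfl⟩
  have hR : 1 ≤ R := by rw [hRd]; exact Nat.floor_pos.mpr hx1
  have hfl : (R : ℝ) ≤ x := by rw [hRd]; exact Nat.floor_le hx0.le
  have hfl2 : x < (R : ℝ) + 1 := by rw [hRd]; exact Nat.lt_floor_add_one x
  have hR1 : (1 : ℝ) ≤ (R : ℝ) := by exact_mod_cast hR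
  have hl2 : 0.6931471803 < Real.log 2 := Real.log_two_gt_d9
  have hl2' : Real.log 2 < 0.6931471808 := Real.log_two_lt_d9
  have hlR : Real.log R ≤ L / 2 := by
    have h1 := Real.log_le_log (by linarith) hfl
    rw [hlogx] at h1
    refine h1.trans ?_
    have h2 : (1 / 2 - c) * L ≤ 1 / 2 * L := mul_le_mul_of_nonneg_right (by linarith) hL0.le
    exact h2.trans (le_of_eq (by ring))
  have hlR0 : 0 ≤ Real.log R := Real.log_nonneg hR1
  have hlR1 : (1 / 2 - c) * L ≤ Real.log ((R : ℝ) + 1) := by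
    rw [← hlogx]; exact Real.log_le_log hx0 hfl2.le
  have hRsq : (R : ℝ) ^ 2 ≤ y := by
    have h1 : x ^ 2 ≤ y := by
      rw [hx, ← Real.rpow_natCast, ← Real.rpow_mul hy0.le]
      calc y ^ ((1 / 2 - c) * ((2 : ℕ) : ℝ)) ≤ y ^ (1 : ℝ) :=
            Real.rpow_le_rpow_of_exponent_le hy1 (by push_cast; linarith)
        _ = y := Real.rpow_one y
    exact (pow_le_pow_left₀ (by linarith) hfl 2).trans h1
  have hRN : R ^ 2 ≤ N := by
    rw [hy] at hRsq
    exact_mod_cast hRsq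
  -- the scale
  obtain ⟨T, hTd⟩ : ∃ T : ℕ, T = ⌊y ^ τ⌋₊ := ⟨_, rfl⟩
  have hyτ0 : 0 < y ^ τ := by positivity
  have hlogyτ : Real.log (y ^ τ) = τ * L := by rw [Real.log_rpow hy0, hL]
  have hT1 : (T : ℝ) ≤ y ^ τ := by rw [hTd]; exact Nat.floor_le hyτ0.le
  have hT2 : y ^ τ < (T : ℝ) + 1 := by rw [hTd]; exact Nat.lt_floor_add_one _
  have hT3 : 1 ≤ T := by
    rw [hTd]
    exact Nat.floor_pos.mpr (by linarith)
  have hTr : (1 : ℝ) ≤ T := by exact_mod_cast hT3
  have hlogT1 : Real.log T ≤ τ * L := by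
    rw [← hlogyτ]
    exact Real.log_le_log (by linarith) hT1
  have hlogT2 : τ * L - Real.log 2 ≤ Real.log T := by
    rw [← hlogyτ, ← Real.log_div hyτ0.ne' (by norm_num)]
    apply Real.log_le_log (by positivity)
    linarith
  -- the errors
  obtain ⟨Q, hQ⟩ : ∃ Q : ℝ, Q = (R : ℝ) * (1 + Real.log R / Real.log 2) := ⟨_, rfl⟩
  have hA : 1 + Real.log R / Real.log 2 ≤ 2 * L := by
    have h1 : Real.log R / Real.log 2 ≤ L := by
      rw [div_le_iff₀ (by linarith)]
      have h2 : L * (1 / 2) ≤ L * Real.log 2 := mul_le_mul_of_nonneg_left (by linarith) hL0.le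
      refine le_trans (hlR.trans (le_of_eq (by ring))) h2
    linarith
  have hA1 : 1 ≤ 1 + Real.log R / Real.log 2 := by
    have : 0 ≤ Real.log R / Real.log 2 := by positivity
    linarith
  have hQ1 : (R : ℝ) ≤ Q := by
    rw [hQ]; exact le_mul_of_one_le_right (by linarith) hA1
  have hQ2 : Q ≤ x * (2 * L) := by
    rw [hQ]; exact mul_le_mul hfl hA (by linarith) hx0.le
  have hQ0 : 1 ≤ Q := hR1.trans hQ1
  have herr : Q ^ 2 + ((R : ℝ) + 1) ≤ 3 * (x * (2 * L)) ^ 2 := by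
    have h1 : Q ^ 2 ≤ (x * (2 * L)) ^ 2 := pow_le_pow_left₀ (by linarith) hQ2 2
    have h2 : Q ≤ Q ^ 2 := le_self_pow₀ hQ0 two_ne_zero
    linarith
  have hxx : x ^ 2 * y ^ (2 * c) = y := by
    rw [hx, ← Real.rpow_natCast, ← Real.rpow_mul hy0.le, ← Real.rpow_add hy0]
    have : (1 / 2 - c) * ((2 : ℕ) : ℝ) + 2 * c = 1 := by push_cast; ring
    rw [this, Real.rpow_one]
  have herr2 : 3 * (x * (2 * L)) ^ 2 ≤ c / 2 * y / L := by
    rw [le_div_iff₀ hL0]
    calc 3 * (x * (2 * L)) ^ 2 * L = x ^ 2 / 2 * (24 * L ^ 3) := by ring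
      _ ≤ x ^ 2 / 2 * (c * y ^ (2 * c)) := by gcongr
      _ = c / 2 * (x ^ 2 * y ^ (2 * c)) := by ring
      _ = c / 2 * y := by rw [hxx]
  obtain ⟨B, hB⟩ : ∃ B : ℝ, B = K * y / L := ⟨_, rfl⟩
  rw [← hB] at hext ⊢
  have hB0 : 0 < B := by rw [hB]; positivity
  have herr3 : Q ^ 2 + ((R : ℝ) + 1) ≤ c * B := by
    refine herr.trans (herr2.trans ?_)
    rw [hB, div_le_iff₀ hL0]
    have h1 : y ≤ K * y := le_mul_of_one_le_left hy0.le hK1
    have h2 : c * (K * y / L) * L = c * (K * y) := by field_simp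
    rw [h2]
    have h3 : c * y ≤ c * (K * y) := mul_le_mul_of_nonneg_left h1 hc0.le
    have h4 : 0 < c * y := by positivity
    refine le_trans ?_ h3
    linarith
  obtain ⟨J, hJ⟩ : ∃ J : ℝ, J = JJ (apSieve a q N R) R := ⟨_, rfl⟩
  have hJ0 : 0 < J := by rw [hJ]; exact JJ_pos R hR
  have hJge := JJ_ge a q N R hq
  rw [← hJ] at hJge
  have hKJ : Real.log ((R : ℝ) + 1) ≤ K * J := by
    have h1 : K * ((Nat.totient q : ℝ) / q * Real.log ((R : ℝ) + 1)) ≤ K * J := by gcongr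
    refine le_trans (le_of_eq ?_) h1
    rw [hK]
    field_simp
  -- upper bound for `J`
  have hyJ : ∀ w : ℝ, 0 ≤ w → ∀ S : Finset ℕ, (∀ t ∈ S, t < N ∧ ¬ (a + t * q).Prime) →
      (∀ t ∈ S, w ≤ |W (apSieve a q N R) R (a + t * q)|) →
      (2 - 2 * c) * B + w ^ 2 * (S.card : ℝ) ≤ y / J := by
    intro w hw S hS h
    have h1 := basic2 a q N R hq hR w hw S hS h
    rw [← hJ, ← hy, ← hQ] at h1
    linarith
  have hJup : (2 - 2 * c) * (K * J) ≤ L := by
    have h1 := hyJ 0 le_rfl ∅ (fun t ht => absurd ht (notMem_empty t)) fun t _ => abs_nonneg _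
    rw [zero_pow two_ne_zero, zero_mul, add_zero, hB, le_div_iff₀ hJ0] at h1
    have h2 : (2 - 2 * c) * (K * y / L) * J = (2 - 2 * c) * (K * J) * y / L := by ring
    rw [h2, div_le_iff₀ hL0, mul_comm y L] at h1
    exact le_of_mul_le_mul_right h1 hy0
  have hKJ0 : 0 < K * J := by positivity
  have hKJL : K * J ≤ (1 / 2 + c) * L := by
    have h1 : 1 ≤ (2 - 2 * c) * (1 / 2 + c) := aux2 hc0.le hc1
    have h2 : (1 / 2 + c) * ((2 - 2 * c) * (K * J)) ≤ (1 / 2 + c) * L :=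
      mul_le_mul_of_nonneg_left hJup (by linarith)
    have h3 : 1 * (K * J) ≤ (2 - 2 * c) * (1 / 2 + c) * (K * J) :=
      mul_le_mul_of_nonneg_right h1 hKJ0.le
    linarith
  -- the weights
  have hw : ∀ d : ℕ, d ∈ (PP q R).divisors → d ≤ R → y ^ η < d → d.primeFactors.card ≤ k →
      (∀ p ∈ d.primeFactors, y ^ η < p) →
      |ww (apSieve a q N R) R d - (μ d : ℝ) * (1 - 2 * Real.log d / L)| ≤ 4 * E := by
    intro d hd hdR hdη hdk hdp
    rw [hJ] at hKJL hKJ
    exact weights hη hE0 hE1 hτ0 hτE hτη hc0 hcE hcτ hC0 hC hy0 hL hL0 h4L hq hR hK hK0 hlR hlR1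
      hT3 hT1 hlogT1 hlogT2 hhh hpp hKJL hKJ hd hdR hdη hdk hdp
  -- the values on the class
  have hval : ∀ t ∈ cls2 η ε k a q N, ε' / 2 ≤ |W (apSieve a q N R) R (a + t * q)| := by
    intro t ht
    rw [cls2, mem_filter] at ht
    obtain ⟨-, -, hrough, hcard, hbig⟩ := ht
    rw [← hy] at hrough
    have hkE : 0 ≤ 2 * k / E := by positivity
    have hne : a + t * q ≠ 0 := by
      intro h0
      have h1 := hrough 2 Nat.prime_two (by rw [h0]; exact dvd_zero 2)
      push_cast at h1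
      linarith
    have hcopn : Nat.Coprime (a + t * q) q := by
      rw [Nat.coprime_add_mul_right_left]
      exact hcop
    have hnear := W_near (a := a) (q := q) (N := N) (R := R) (k := k) (κ := 4 * E) hne hcopn hRN
      hcard (by positivity) (by
        intro d hdn hd hdR
        rw [← hy, ← hL]
        by_cases hd1 : d = 1
        · rw [hd1, ww_one R hR]
          simp
          positivity
        · have hd0 : d ≠ 0 := (Nat.pos_of_mem_divisors hd).ne'
          obtain ⟨p, hp, hpd⟩ := Nat.exists_prime_and_dvd hd1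
          have hpη := hrough p hp (hpd.trans hdn)
          apply hw d hd hdR
          · refine hpη.trans_le ?_
            exact_mod_cast Nat.le_of_dvd (Nat.pos_of_ne_zero hd0) hpd
          · refine le_trans (card_le_card ?_) hcard
            intro r hr
            rw [Nat.mem_primeFactors] at hr
            rw [mem_filter, Nat.mem_primeFactors]
            refine ⟨⟨hr.1, hr.2.1.trans hdn, hne⟩, ?_⟩
            have hrd : r ≤ R := (Nat.le_of_dvd (Nat.pos_of_ne_zero hd0) hr.2.1).trans hdR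
            exact (Nat.pow_le_pow_left hrd 2).trans hRN
          · intro r hr
            rw [Nat.mem_primeFactors] at hr
            exact hrough r hr.1 (hr.2.1.trans hdn))
      (by
        intro d hdn hRd' hdN
        rw [← hy, ← hL]
        have hd0 : (0 : ℝ) < d := by
          have : (0 : ℝ) < R := by linarith
          have h2 : (R : ℝ) < d := by exact_mod_cast hRd'
          linarith
        have h1 : (1 / 2 - c) * L ≤ Real.log d := by
          refine hlR1.trans (Real.log_le_log (by positivity) ?_)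
          exact_mod_cast hRd'
        have h2 : 2 * Real.log d ≤ L := by
          have h3 : Real.log ((d : ℝ) ^ 2) ≤ Real.log y := by
            apply Real.log_le_log (by positivity)
            rw [hy]
            exact_mod_cast hdN
          rw [Real.log_pow] at h3
          push_cast at h3
          linarith
        have h3 : 2 * Real.log d / L ≤ 1 := by
          rw [div_le_one hL0]
          exact h2
        have h4 : 1 - 2 * c ≤ 2 * Real.log d / L := by
          rw [le_div_iff₀ hL0]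
          linarith
        rw [abs_of_nonneg (by linarith)]
        linarith)
    rw [hE2] at hnear
    have h1 : |WW N (a + t * q)| ≤ |W (apSieve a q N R) R (a + t * q)| +
        |W (apSieve a q N R) R (a + t * q) - WW N (a + t * q)| := by
      have h2 := abs_sub_abs_le_abs_sub (WW N (a + t * q)) (W (apSieve a q N R) R (a + t * q))
      rw [abs_sub_comm] at h2
      linarith
    linarith
  have hmem : ∀ t ∈ cls2 η ε k a q N, t < N ∧ ¬ (a + t * q).Prime := by
    intro t ht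
    rw [cls2, mem_filter, mem_range] at ht
    exact ⟨ht.1, ht.2.1⟩
  have hfin := hyJ (ε' / 2) (by linarith) _ hmem hval
  have hyJ2 : y / J ≤ (2 + 8 * c) * B := by
    rw [div_le_iff₀ hJ0, hB]
    have h1 : (1 / 2 - c) * L ≤ K * J := hlR1.trans hKJ
    have h2 : 1 ≤ (2 + 8 * c) * (1 / 2 - c) := aux1 hc0.le hc1
    have h3 : (2 + 8 * c) * (K * y / L) * J = (2 + 8 * c) * (K * J) * y / L := by ring
    rw [h3, le_div_iff₀ hL0, mul_comm y L]
    apply mul_le_mul_of_nonneg_right _ hy0.le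
    calc L = 1 * L := (one_mul L).symm
      _ ≤ (2 + 8 * c) * (1 / 2 - c) * L := mul_le_mul_of_nonneg_right h2 hL0.le
      _ = (2 + 8 * c) * ((1 / 2 - c) * L) := by ring
      _ ≤ (2 + 8 * c) * (K * J) := mul_le_mul_of_nonneg_left h1 (by linarith)
  have h1 : (ε' / 2) ^ 2 * ((cls2 η ε k a q N).card : ℝ) ≤ 10 * c * B := by linarith
  have h2 : ((cls2 η ε k a q N).card : ℝ) ≤ 40 / ε' ^ 2 * c * B := by
    have h3 : 4 / ε' ^ 2 * ((ε' / 2) ^ 2 * ((cls2 η ε k a q N).card : ℝ)) ≤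
        4 / ε' ^ 2 * (10 * c * B) := by
      gcongr
    have h4 : 4 / ε' ^ 2 * ((ε' / 2) ^ 2 * ((cls2 η ε k a q N).card : ℝ)) =
        ((cls2 η ε k a q N).card : ℝ) := by
      field_simp
      norm_num
    rw [h4] at h3
    refine h3.trans (le_of_eq ?_)
    ring
  refine h2.trans ?_
  apply mul_le_mul_of_nonneg_right _ hB0.le
  refine le_trans ?_ hεε
  have h5 : 40 / ε' ^ 2 * c ≤ 40 / ε' ^ 2 * (ε' ^ 3 / 64) := by gcongr
  have h6 : 40 / ε' ^ 2 * (ε' ^ 3 / 64) = 40 / 64 * ε' := by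
    field_simp
  linarith

end Pool.Agent.E8helper28.BT
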